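import Mathlib

/-!
# Commutators of elements which are congruent to one
-/

set_option autoImplicit false

namespace Pool.Agent.K4H70.HB

section abs
variable {R B : Type*} [CommRing R] [Ring B] [Algebra R B]

/-- congruence modulo `p` -/
def Cg (S : Subalgebra R B) (p : R) (a L : B) : Prop := ∃ c ∈ S, a = L + p • c

theorem Cg.refl {S : Subalgebra R B} {p : R} (a : B) : Cg S p a a :=
  ⟨0, S.zero_mem, by simp⟩

theorem Cg.mul {S : Subalgebra R B} {p : R} {a L b M : B} (hL : L ∈ S) (hM : M ∈ S)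
    (h : Cg S p a L) (k : Cg S p b M) : Cg S p (a * b) (L * M) := by
  obtain ⟨c, hc, rfl⟩ := h
  obtain ⟨c', hc', rfl⟩ := k
  refine ⟨L * c' + c * M + p • (c * c'), ?_, ?_⟩
  · exact S.add_mem (S.add_mem (S.mul_mem hL hc') (S.mul_mem hc hM)) (S.smul_mem (S.mul_mem hc hc') p)
  · simp only [mul_add, add_mul, smul_mul_assoc, mul_smul_comm, smul_add]
    abel

theorem Cg.sub {S : Subalgebra R B} {p : R} {a L b M : B}
    (h : Cg S p a L) (k : Cg S p b M) : Cg S p (a - b) (L - M) := by
  obtain ⟨c, hc, rfl⟩ := h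
  obtain ⟨c', hc', rfl⟩ := k
  refine ⟨c - c', S.sub_mem hc hc', ?_⟩
  rw [smul_sub]
  abel

/-- `w, w'` inverse elements of the subalgebra `S`, `w = 1 + q a` with `a ≡ L` modulo `p` -/
structure Nm (S : Subalgebra R B) (p q : R) (w w' L : B) : Prop where
  mul : w * w' = 1
  mul' : w' * w = 1
  mem' : w' ∈ S
  mL : L ∈ S
  ex : ∃ a ∈ S, w = 1 + q • a ∧ Cg S p a L

theorem Nm.cg' {S : Subalgebra R B} {p q : R} {w w' L : B} (hq : p ∣ q) (h : Nm S p q w w' L) :
    Cg S p w' 1 := by
  obtain ⟨a, ha, hw, _⟩ := h.ex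
  obtain ⟨r, rfl⟩ := hq
  refine ⟨-(r • (a * w')), S.neg_mem (S.smul_mem (S.mul_mem ha h.mem') r), ?_⟩
  have h1 := h.mul
  rw [hw, add_mul, one_mul, smul_mul_assoc] at h1
  rw [smul_neg, smul_smul, ← h1]
  abel

theorem Nm.comm {S : Subalgebra R B} {p q x : R} {w w' L X X' M : B} (hq : p ∣ q) (hx : p ∣ x)
    (h : Nm S p q w w' L) (k : Nm S p x X X' M) :
    Nm S p (q * x) (w * X * w' * X') (X * w * X' * w') (L * M - M * L) := by
  obtain ⟨a, ha, hw, hcg⟩ := h.ex
  obtain ⟨b, hb, hX, hcg'⟩ := k.ex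
  have hwS : w ∈ S := by
    rw [hw]; exact S.add_mem S.one_mem (S.smul_mem ha q)
  have hXS : X ∈ S := by
    rw [hX]; exact S.add_mem S.one_mem (S.smul_mem hb x)
  refine ⟨?_, ?_, ?_, ?_, ?_⟩
  · calc w * X * w' * X' * (X * w * X' * w') = w * X * w' * (X' * X) * w * X' * w' := by noncomm_ring
      _ = w * X * (w' * w) * X' * w' := by rw [k.mul']; noncomm_ring
      _ = w * (X * X') * w' := by rw [h.mul']; noncomm_ring
      _ = 1 := by rw [k.mul, mul_one, h.mul]
  · calc X * w * X' * w' * (w * X * w' * X') = X * w * X' * (w' * w) * X * w' * X' := by noncomm_ring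
      _ = X * w * (X' * X) * w' * X' := by rw [h.mul']; noncomm_ring
      _ = X * (w * w') * X' := by rw [k.mul']; noncomm_ring
      _ = 1 := by rw [h.mul, mul_one, k.mul]
  · exact S.mul_mem (S.mul_mem (S.mul_mem hXS hwS) k.mem') h.mem'
  · exact S.sub_mem (S.mul_mem h.mL k.mL) (S.mul_mem k.mL h.mL)
  · refine ⟨(a * b - b * a) * w' * X', ?_, ?_, ?_⟩
    · exact S.mul_mem (S.mul_mem (S.sub_mem (S.mul_mem ha hb) (S.mul_mem hb ha)) h.mem') k.mem'
    · have h1 : w * X = X * w + (q * x) • (a * b - b * a) := by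
        rw [hw, hX]
        simp only [mul_add, add_mul, smul_mul_assoc, mul_smul_comm, smul_add, one_mul, mul_one,
          smul_sub, smul_smul, mul_comm x q]
        abel
      rw [h1]
      calc (X * w + (q * x) • (a * b - b * a)) * w' * X' =
          X * (w * w') * X' + (q * x) • ((a * b - b * a) * w' * X') := by
            simp only [add_mul, smul_mul_assoc]
            noncomm_ring
        _ = _ := by rw [h.mul, mul_one, k.mul]
    · have h2 : Cg S p (a * b - b * a) (L * M - M * L) :=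
        (hcg.mul h.mL k.mL hcg').sub (hcg'.mul k.mL h.mL hcg)
      have h3 := h2.mul (S.sub_mem (S.mul_mem h.mL k.mL) (S.mul_mem k.mL h.mL)) S.one_mem (h.cg' hq)
      have h4 := h3.mul (S.mul_mem (S.sub_mem (S.mul_mem h.mL k.mL) (S.mul_mem k.mL h.mL)) S.one_mem)
        S.one_mem (k.cg' hx)
      simpa using h4

/-- scalars do not matter in commutators -/
theorem comm_smul {u u' v v' : R} (hu : u * u' = 1) (hv : v * v' = 1) (w w' X X' : B) :
    (u • w) * (v • X) * (u' • w') * (v' • X') = w * X * w' * X' := by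
  simp only [smul_mul_assoc, mul_smul_comm, smul_smul]
  have : v' * (u' * (v * u)) = 1 := by linear_combination (v * v') * hu + hv
  rw [this, one_smul]

/-- powers of `1 + s g` for `g * g = D • g` -/
theorem pow_one_add {g : B} {D s ρ : R} (hg : g * g = D • g) (hρ : 1 + s * D = ρ) (k : ℕ) :
    (1 + s • g) ^ k = 1 + (s * ∑ j ∈ Finset.range k, ρ ^ j) • g := by
  induction k with
  | zero => simp
  | succ k ih =>
    rw [pow_succ, ih]
    have h1 : (∑ j ∈ Finset.range k, ρ ^ j) * (ρ - 1) = ρ ^ k - 1 := geom_sum_mul ρ k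
    rw [Finset.sum_range_succ]
    generalize (∑ j ∈ Finset.range k, ρ ^ j) = gs at *
    have e : s * (gs + ρ ^ k) = s + (s * gs + s * gs * s * D) := by
      rw [← hρ] at h1 ⊢
      linear_combination (-s) * h1
    rw [e]
    simp only [mul_add, add_mul, smul_mul_assoc, mul_smul_comm, one_mul, mul_one, hg, smul_smul,
      add_smul, smul_add]
    rw [show s * (s * gs * D) = s * gs * s * D by ring]
    abel

end abs

end Pool.Agent.K4H70.HB
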