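import Pool.Agent.Y463.SK.Bridge

/-!
# Elements of the Temperley-Lieb algebra on four strands
-/

set_option autoImplicit false

namespace Pool.Agent.K4H70.HB

open LaurentPolynomial Pool.Agent.H891R2.Jones Pool.Agent.W639.RB Pool.Agent.Y463.SK

/-- the loop value -/
noncomputable def dd : ℤ[T;T⁻¹] := -(T 1)^2 - (T (-1))^2

/-- the central element of the algebra on the first three strands -/
noncomputable def zz : BB 4 := EB 4 0 * EB 4 1 + EB 4 1 * EB 4 0 - dd • (EB 4 0 + EB 4 1)

noncomputable def L1 : BB 4 := EB 4 2 * zz - zz * EB 4 2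

/-- the word `σ_1 σ_2 σ_3`, whose closure is the unknot -/
def vv : List (Bool × ℕ) := [(true, 0), (true, 1), (true, 2)]

end Pool.Agent.K4H70.HB
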