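import Mathlib

/-!
# Divisibility of the coefficients
-/

set_option autoImplicit false

namespace Pool.Agent.K4H70.HB

open LaurentPolynomial

noncomputable def xx (k : ℕ) : ℤ[T;T⁻¹] := (T (-2) * (1 - T (-4))) * ∑ j ∈ Finset.range k, (T (-8))^j
noncomputable def yy (r : ℕ) : ℤ[T;T⁻¹] := (T (-4) * (1 - T (-4))) * ∑ j ∈ Finset.range r, (T (-12))^j

theorem mul_of {t q q' u : ℤ[T;T⁻¹]} (h1 : q * (1 + t) = u) (h2 : q' * (1 + t + t^2) = u) :
    q * q' = u * (q - t * q') := by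
  linear_combination q * h2 - t * q' * h1

theorem geo (t : ℤ[T;T⁻¹]) (k : ℕ) : (1 - t) * ∑ j ∈ Finset.range k, (t^2)^j * (1 + t) = 1 - (t^2)^k := by
  have h := geom_sum_mul (t^2) k
  rw [← Finset.sum_mul]
  linear_combination (-1) * h

theorem geo' (t : ℤ[T;T⁻¹]) (k : ℕ) : (1 - t) * ∑ j ∈ Finset.range k, (t^3)^j * (1 + t + t^2) = 1 - (t^3)^k := by
  have h := geom_sum_mul (t^3) k
  rw [← Finset.sum_mul]
  linear_combination (-1) * h

theorem T_m8 : (T (-8) : ℤ[T;T⁻¹]) = (T (-4))^2 := by rw [T_pow]; norm_num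
theorem T_m12 : (T (-12) : ℤ[T;T⁻¹]) = (T (-4))^3 := by rw [T_pow]; norm_num
theorem T_m4M (M : ℕ) : (T (-4 * (M : ℤ)) : ℤ[T;T⁻¹]) = (T (-4))^M := by rw [T_pow]; congr 1; ring

/-- `1 - t^M` divides the product -/
theorem dvd_xy (M : ℕ) : (1 - T (-4 * (M : ℤ)) : ℤ[T;T⁻¹]) ∣ xx (3 * M) * yy (2 * M) := by
  set t : ℤ[T;T⁻¹] := T (-4) with ht
  have h1 : ((1 - t) * ∑ j ∈ Finset.range (3 * M), (t^2)^j) * (1 + t) = 1 - (t^M)^6 := by
    have h := geo t (3 * M)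
    rw [← Finset.sum_mul] at h
    rw [mul_assoc, h, ← pow_mul, ← pow_mul]; congr 2; ring
  have h2 : ((1 - t) * ∑ j ∈ Finset.range (2 * M), (t^3)^j) * (1 + t + t^2) = 1 - (t^M)^6 := by
    have h := geo' t (2 * M)
    rw [← Finset.sum_mul] at h
    rw [mul_assoc, h, ← pow_mul, ← pow_mul]; congr 2; ring
  have h3 := mul_of h1 h2
  have h4 : xx (3 * M) * yy (2 * M) = (T (-2) * T (-4)) * 
      (((1 - t) * ∑ j ∈ Finset.range (3 * M), (t^2)^j) * ((1 - t) * ∑ j ∈ Finset.range (2 * M), (t^3)^j)) := by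
    unfold xx yy
    rw [T_m8, T_m12, ← ht]
    ring
  rw [h4, h3, T_m4M, ← ht]
  refine Dvd.dvd.mul_left (Dvd.dvd.mul_right ?_ _) _
  exact ⟨1 + t^M + (t^M)^2 + (t^M)^3 + (t^M)^4 + (t^M)^5, by ring⟩

theorem pi_dvd_x (k : ℕ) : (T 1 - 1 : ℤ[T;T⁻¹]) ∣ xx k := by
  have h : (T 1 - 1 : ℤ[T;T⁻¹]) ∣ 1 - T (-4) := by
    refine ⟨T (-4) * (1 + T 1 + T 2 + T 3), ?_⟩
    simp only [mul_add, add_mul, sub_mul, mul_one, one_mul, ← T_add]
    norm_num
    try ring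
  exact (h.mul_left _).mul_right _

theorem pi_dvd_y (k : ℕ) : (T 1 - 1 : ℤ[T;T⁻¹]) ∣ yy k := by
  have h : (T 1 - 1 : ℤ[T;T⁻¹]) ∣ 1 - T (-4) := by
    refine ⟨T (-4) * (1 + T 1 + T 2 + T 3), ?_⟩
    simp only [mul_add, add_mul, sub_mul, mul_one, one_mul, ← T_add]
    norm_num
    try ring
  exact (h.mul_left _).mul_right _

/-- evaluation at `A = 1` -/
noncomputable def eps : ℤ[T;T⁻¹] →+* ℤ := LaurentPolynomial.eval₂ (RingHom.id ℤ) (1 : ℤˣ)

theorem eps_T (k : ℤ) : eps (T k) = 1 := by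
  unfold eps
  rw [LaurentPolynomial.eval₂_T]
  simp

/-- evaluation at `A = 2` -/
noncomputable def e2 : ℤ[T;T⁻¹] →+* ℚ := LaurentPolynomial.eval₂ (Int.castRingHom ℚ) (Units.mk0 2 (by norm_num))

theorem e2_T (k : ℤ) : e2 (T k) = (2 : ℚ)^k := by
  unfold e2
  rw [LaurentPolynomial.eval₂_T]
  simp

theorem x_ne {k : ℕ} (hk : 0 < k) : xx k ≠ 0 := by
  intro h
  have h1 := congrArg e2 h
  unfold xx at h1
  rw [map_mul, map_mul, map_sub, map_one, map_sum, map_zero, e2_T, e2_T] at h1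
  have h2 : 0 < ∑ j ∈ Finset.range k, e2 ((T (-8))^j) := by
    refine Finset.sum_pos (fun j _ => ?_) ⟨0, Finset.mem_range.2 hk⟩
    rw [map_pow, e2_T]; positivity
  have h3 : (0 : ℚ) < 2^(-2 : ℤ) * (1 - 2^(-4 : ℤ)) := by norm_num
  exact absurd h1 (mul_pos h3 h2).ne'

theorem y_ne {k : ℕ} (hk : 0 < k) : yy k ≠ 0 := by
  intro h
  have h1 := congrArg e2 h
  unfold yy at h1
  rw [map_mul, map_mul, map_sub, map_one, map_sum, map_zero, e2_T] at h1
  have h2 : 0 < ∑ j ∈ Finset.range k, e2 ((T (-12))^j) := by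
    refine Finset.sum_pos (fun j _ => ?_) ⟨0, Finset.mem_range.2 hk⟩
    rw [map_pow, e2_T]; positivity
  have h3 : (0 : ℚ) < 2^(-4 : ℤ) * (1 - 2^(-4 : ℤ)) := by norm_num
  exact absurd h1 (mul_pos h3 h2).ne'

theorem eps_x (k : ℕ) : eps (xx k) = 0 := by
  unfold xx
  rw [map_mul, map_mul, map_sub, map_one, eps_T, eps_T]
  ring

/-- the cofactors -/
noncomputable def gx (k : ℕ) : ℤ[T;T⁻¹] := T (-2) * ∑ j ∈ Finset.range k, (T (-8))^j
noncomputable def gy (r : ℕ) : ℤ[T;T⁻¹] := T (-4) * ∑ j ∈ Finset.range r, (T (-12))^j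

theorem xx_eq (k : ℕ) : xx k = (1 - T (-4)) * gx k := by unfold xx gx; ring
theorem yy_eq (k : ℕ) : yy k = (1 - T (-4)) * gy k := by unfold yy gy; ring

theorem eps_gx (k : ℕ) : eps (gx k) = k := by
  unfold gx
  rw [map_mul, map_sum, eps_T]
  simp [map_pow, eps_T]

theorem eps_gy (k : ℕ) : eps (gy k) = k := by
  unfold gy
  rw [map_mul, map_sum, eps_T]
  simp [map_pow, eps_T]

theorem one_sub_ne : (1 - T (-4) : ℤ[T;T⁻¹]) ≠ 0 := by
  intro h
  have h1 := congrArg e2 h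
  rw [map_sub, map_one, map_zero, e2_T] at h1
  norm_num at h1

/-- sequences with different orders of vanishing are different -/
theorem inj_of' (G : ℕ → ℤ[T;T⁻¹]) (hG : ∀ n, eps (G n) ≠ 0) (f : ℕ → ℤ[T;T⁻¹])
    (h : ∀ n, f n = 1 + ((1 - T (-4))^2)^(n+1) * G n) : Function.Injective f := by
  have ha : ((1 - T (-4))^2 : ℤ[T;T⁻¹]) ≠ 0 := pow_ne_zero _ one_sub_ne
  have ha1 : eps ((1 - T (-4))^2) = 0 := by
    rw [map_pow, map_sub, map_one, eps_T]; norm_num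
  generalize ((1 - T (-4))^2 : ℤ[T;T⁻¹]) = a at *
  have key : ∀ n m, n < m → f n ≠ f m := by
    intro n m hnm he
    rw [h n, h m] at he
    obtain ⟨l, rfl⟩ : ∃ l, m = n + (l + 1) := ⟨m - n - 1, by omega⟩
    have h1 : a^(n+1) * (G n - a^(l+1) * G (n+(l+1))) = 0 := by
      have e : a^(n+(l+1)+1) = a^(n+1) * a^(l+1) := by ring
      rw [e] at he
      linear_combination he
    rcases mul_eq_zero.1 h1 with h2 | h2
    · exact pow_ne_zero _ ha h2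
    · have h3 := congrArg eps h2
      rw [map_sub, map_mul, map_pow, ha1, zero_pow (by omega), zero_mul, sub_zero, map_zero] at h3
      exact hG n h3
  intro n m he
  rcases lt_trichotomy n m with h1 | h1 | h1
  · exact absurd he (key n m h1)
  · exact h1
  · exact absurd he.symm (key m n h1)

theorem dvd_fac {M j : ℕ} (hM : 0 < M) (hj : M ≤ j) : 
    (1 - T (-4 * (M : ℤ)) : ℤ[T;T⁻¹]) ∣ xx (3 * j.factorial) * yy (2 * j.factorial) := by
  refine dvd_trans ?_ (dvd_xy j.factorial)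
  obtain ⟨c, hc⟩ := Nat.dvd_factorial hM hj
  rw [T_m4M, T_m4M, hc, pow_mul]
  have := sub_dvd_pow_sub_pow (1 : ℤ[T;T⁻¹]) ((T (-4))^M) c
  rwa [one_pow] at this

end Pool.Agent.K4H70.HB
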