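import Pool.Agent.K4H70.HB.Def

/-!
# Trace values in the Temperley-Lieb algebra on four strands
-/

set_option autoImplicit false

namespace Pool.Agent.K4H70.HB

open LaurentPolynomial Pool.Agent.H891R2.Jones Pool.Agent.W639.RB Pool.Agent.Y463.SK

namespace Tr

section abstract

variable {B : Type*} [Ring B] [Algebra ℂ B]

/-- abstract data: a trace on an algebra with the Temperley-Lieb relations on four strands -/
structure Dat (τ : B →ₗ[ℂ] ℂ) (a b c : B) (n A : ℂ) : Prop where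
  cyc : ∀ x y, τ (x * y) = τ (y * x)
  aa : a * a = n • a
  bb' : b * b = n • b
  cc : c * c = n • c
  aba : a * b * a = a
  bab : b * a * b = b
  bcb : b * c * b = b
  cbc : c * b * c = c
  ac : a * c = c * a
  hn : n ≠ 0
  t1 : τ 1 = n ^ 4
  ta : τ a = n ^ 3
  tb : τ b = n ^ 3
  tc : τ c = n ^ 3
  tac : τ (a * c) = n ^ 2
  hA : A ≠ 0
  hnA : n = -A ^ 2 - A⁻¹ ^ 2

variable {τ : B →ₗ[ℂ] ℂ} {a b c : B} {n A : ℂ}

theorem Dat.tab (h : Dat τ a b c n A) : τ (a * b) = n ^ 2 := by
  have h1 : n * τ (a * b) = n ^ 3 := by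
    rw [← smul_eq_mul, ← map_smul, ← smul_mul_assoc, ← h.aa, mul_assoc, h.cyc, h.aba, h.ta]
  apply mul_left_cancel₀ h.hn
  rw [h1]; ring

theorem Dat.tbc (h : Dat τ a b c n A) : τ (b * c) = n ^ 2 := by
  have h1 : n * τ (b * c) = n ^ 3 := by
    rw [← smul_eq_mul, ← map_smul, ← smul_mul_assoc, ← h.bb', mul_assoc, h.cyc, h.bcb, h.tb]
  apply mul_left_cancel₀ h.hn
  rw [h1]; ring

theorem Dat.tabc (h : Dat τ a b c n A) : τ (a * b * c) = n := by
  have h1 : n * τ (a * b * c) = n ^ 2 := by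
    rw [← smul_eq_mul, ← map_smul, ← mul_smul_comm, ← h.cc, ← mul_assoc, h.cyc]
    have : c * (a * b * c) = a * c := by
      rw [← mul_assoc, ← mul_assoc, ← h.ac, mul_assoc, mul_assoc, ← mul_assoc c b c, h.cbc]
    rw [this, h.tac]
  apply mul_left_cancel₀ h.hn
  rw [h1]; ring

theorem Dat.tacb (h : Dat τ a b c n A) : τ (a * c * b) = n := by
  have h1 : n * τ (a * c * b) = n ^ 2 := by
    have h2 : n • (a * c * b) = (a * c) * (c * b) := by
      rw [mul_assoc a c (c * b), ← mul_assoc c c b, h.cc, smul_mul_assoc, mul_smul_comm, mul_assoc]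
    have h3 : (c * b) * (a * c) = c * a := by
      rw [h.ac, ← mul_assoc, h.cbc]
    rw [← smul_eq_mul, ← map_smul, h2, h.cyc, h3, ← h.ac, h.tac]
  apply mul_left_cancel₀ h.hn
  rw [h1]; ring

/-- the product of the three generators -/
theorem Dat.R_eq (h : Dat τ a b c n A) : 
    (A • (1 : B) + A⁻¹ • a) * ((A • (1 : B) + A⁻¹ • b) * (A • (1 : B) + A⁻¹ • c)) = 
      (A ^ 3) • (1 : B) + A • (a + b + c) + A⁻¹ • (a * b + a * c + b * c) + (A⁻¹ ^ 3) • (a * b * c) := by
  have hA := h.hA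
  simp only [mul_add, add_mul, smul_mul_assoc, mul_smul_comm, smul_add, smul_smul, mul_one, one_mul,
    mul_assoc]
  match_scalars <;> field_simp

theorem Dat.T1 (h : Dat τ a b c n A) : 
    τ ((A • (1 : B) + A⁻¹ • a) * ((A • (1 : B) + A⁻¹ • b) * (A • (1 : B) + A⁻¹ • c))) = n * -(A ^ 9) := by
  rw [h.R_eq]
  simp only [map_add, map_smul, smul_eq_mul, h.t1, h.ta, h.tb, h.tc, h.tab, h.tac, h.tbc, h.tabc]
  have hA := h.hA
  rw [h.hnA]
  field_simp
  ring

theorem Dat.comm (h : Dat τ a b c n A) (R : B) (hR : R = (A ^ 3) • (1 : B) + A • (a + b + c) + 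
    A⁻¹ • (a * b + a * c + b * c) + (A⁻¹ ^ 3) • (a * b * c)) : 
    R * c - c * R = A • (b * c - c * b) + A⁻¹ • (a * b * c - a * c * b + n • (b * c) - c) + 
      (A⁻¹ ^ 3) • (n • (a * b * c) - a * c) := by
  have k1 : (a + b + c) * c - c * (a + b + c) = b * c - c * b := by
    rw [add_mul, add_mul, mul_add, mul_add, ← h.ac]; abel
  have e1 : a * c * c = n • (a * c) := by rw [mul_assoc, h.cc, mul_smul_comm]
  have e2 : b * c * c = n • (b * c) := by rw [mul_assoc, h.cc, mul_smul_comm]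
  have e3 : c * (a * b) = a * c * b := by rw [← mul_assoc, ← h.ac]
  have e4 : c * (a * c) = n • (a * c) := by rw [← mul_assoc, ← h.ac, mul_assoc, h.cc, mul_smul_comm]
  have e5 : c * (b * c) = c := by rw [← mul_assoc, h.cbc]
  have e6 : a * b * c * c = n • (a * b * c) := by rw [mul_assoc, h.cc, mul_smul_comm]
  have e7 : c * (a * b * c) = a * c := by
    rw [← mul_assoc, ← mul_assoc, ← h.ac, mul_assoc, mul_assoc, ← mul_assoc c b c, h.cbc]
  have k2 : (a * b + a * c + b * c) * c - c * (a * b + a * c + b * c) = 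
      a * b * c - a * c * b + n • (b * c) - c := by
    rw [add_mul, add_mul, mul_add, mul_add, e1, e2, e3, e4, e5]; abel
  have e8 : R * c - c * R = A • ((a + b + c) * c - c * (a + b + c)) + 
      A⁻¹ • ((a * b + a * c + b * c) * c - c * (a * b + a * c + b * c)) + 
      (A⁻¹ ^ 3) • (a * b * c * c - c * (a * b * c)) := by
    rw [hR]
    simp only [add_mul, mul_add, smul_mul_assoc, mul_smul_comm, one_mul, mul_one, smul_add, smul_sub]
    abel
  rw [e8, k1, k2, e6, e7]

theorem Dat.T2 (h : Dat τ a b c n A) (z : B) (hz : z = a * b + b * a - n • (a + b)) : 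
    τ ((c * z - z * c) * ((A • (1 : B) + A⁻¹ • a) * ((A • (1 : B) + A⁻¹ • b) * 
      (A • (1 : B) + A⁻¹ • c)))) = 
      n * (-(A ^ 4 + 1 + A⁻¹ ^ 4) * (A ^ 3 + A⁻¹ ^ 5)) := by
  rw [h.R_eq]
  obtain ⟨R, hR⟩ : ∃ R : B, R = (A ^ 3) • (1 : B) + A • (a + b + c) + 
    A⁻¹ • (a * b + a * c + b * c) + (A⁻¹ ^ 3) • (a * b * c) := ⟨_, rfl⟩
  rw [← hR]
  have e1 : τ ((c * z - z * c) * R) = τ (z * (R * c - c * R)) := by
    rw [sub_mul, map_sub, mul_sub, map_sub, mul_assoc c z R, h.cyc c (z * R), mul_assoc, mul_assoc]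
  rw [e1, h.comm R hR]
  have za : z * a = (1 - n ^ 2) • a := by
    rw [hz, sub_mul, add_mul, h.aba, mul_assoc b a a, h.aa, smul_mul_assoc, add_mul, h.aa, mul_smul_comm]
    module
  have zb : z * b = (1 - n ^ 2) • b := by
    rw [hz, sub_mul, add_mul, h.bab, mul_assoc a b b, h.bb', smul_mul_assoc, add_mul, h.bb', mul_smul_comm]
    module
  have bz : b * z = (1 - n ^ 2) • b := by
    rw [hz, mul_sub, mul_add, ← mul_assoc, h.bab, ← mul_assoc, h.bb', mul_smul_comm, mul_add, h.bb', 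
      smul_mul_assoc]
    module
  have u1 : τ (z * (b * c)) = (1 - n ^ 2) * n ^ 2 := by
    rw [← mul_assoc, zb, smul_mul_assoc, map_smul, h.tbc, smul_eq_mul]
  have u2 : τ (z * (c * b)) = (1 - n ^ 2) * n ^ 2 := by
    rw [← mul_assoc, h.cyc, ← mul_assoc, bz, smul_mul_assoc, map_smul, h.tbc, smul_eq_mul]
  have u3 : τ (z * (a * b * c)) = (1 - n ^ 2) * n := by
    rw [mul_assoc a b c, ← mul_assoc z a, za, smul_mul_assoc, map_smul, ← mul_assoc, h.tabc, smul_eq_mul]
  have u4 : τ (z * (a * c * b)) = (1 - n ^ 2) * n := by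
    rw [mul_assoc a c b, ← mul_assoc z a, za, smul_mul_assoc, map_smul, ← mul_assoc, h.tacb, smul_eq_mul]
  have u5 : τ (z * c) = 2 * n - 2 * n ^ 3 := by
    have : τ (b * a * c) = n := by rw [mul_assoc, h.cyc, h.tacb]
    rw [hz, sub_mul, add_mul, smul_mul_assoc, add_mul, map_sub, map_add, map_smul, map_add, h.tabc, this,
      h.tac, h.tbc, smul_eq_mul]
    ring
  have u6 : τ (z * (a * c)) = (1 - n ^ 2) * n ^ 2 := by
    rw [← mul_assoc z a, za, smul_mul_assoc, map_smul, h.tac, smul_eq_mul]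
  simp only [mul_add, mul_sub, mul_smul_comm, map_add, map_sub, map_smul, smul_eq_mul, u1, u2, u3, u4, u5,
    u6]
  have hA := h.hA
  rw [h.hnA]
  field_simp
  ring

end abstract

/-! ### operators given by matrices -/

/-- the colourings -/
abbrev X (N : ℕ) : Type := Fin 4 → Fin N

/-- the identity kernel -/
noncomputable def g0 (N : ℕ) : X N → (X N → ℂ) := fun x y => ind (x = y)

/-- the operator of a matrix -/
noncomputable def op (N : ℕ) (M : Matrix (X N) (X N) ℂ) : Module.End ℂ (X N → (X N → ℂ)) where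
  toFun ψ := fun x => ∑ y, M x y • ψ y
  map_add' ψ φ := by
    funext x
    simp [Finset.sum_add_distrib]
  map_smul' r ψ := by
    funext x
    simp only [Pi.smul_apply, RingHom.id_apply, Finset.smul_sum]
    exact Finset.sum_congr rfl fun y _ => smul_comm _ _ _

variable {N : ℕ}

theorem op_apply (M : Matrix (X N) (X N) ℂ) (ψ : X N → (X N → ℂ)) (x : X N) :
    op N M ψ x = ∑ y, M x y • ψ y := rfl

theorem sum_ind (u : X N) (f : X N → ℂ) : ∑ y, ind (u = y) * f y = f u := by
  rw [Finset.sum_eq_single u]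
  · rw [ind_pos rfl, one_mul]
  · intro y _ hy
    rw [ind_neg (fun h => hy h.symm), zero_mul]
  · intro h
    exact absurd (Finset.mem_univ _) h

theorem sum_ind' (u : X N) (f : X N → ℂ) : ∑ y, f y * ind (y = u) = f u := by
  rw [← sum_ind u f]
  refine Finset.sum_congr rfl fun y _ => ?_
  rw [mul_comm, ind_congr (p := y = u) (q := u = y) ⟨Eq.symm, Eq.symm⟩]

theorem op_g0 (M : Matrix (X N) (X N) ℂ) (x y : X N) : op N M (g0 N) x y = M x y := by
  rw [op_apply, Finset.sum_apply]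
  exact sum_ind' y (fun z => M x z)

theorem op_inj {M M' : Matrix (X N) (X N) ℂ} (h : op N M = op N M') : M = M' := by
  ext x y
  rw [← op_g0 M, ← op_g0 M', h]

theorem op_mul (M M' : Matrix (X N) (X N) ℂ) : op N (M * M') = op N M * op N M' := by
  apply LinearMap.ext
  intro ψ
  funext x
  rw [Module.End.mul_apply, op_apply, op_apply]
  simp only [op_apply, Matrix.mul_apply, Finset.sum_smul, Finset.smul_sum, smul_smul]
  rw [Finset.sum_comm]

theorem op_add (M M' : Matrix (X N) (X N) ℂ) : op N (M + M') = op N M + op N M' := by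
  apply LinearMap.ext
  intro ψ
  funext x
  rw [LinearMap.add_apply, Pi.add_apply, op_apply, op_apply, op_apply, ← Finset.sum_add_distrib]
  refine Finset.sum_congr rfl fun y _ => ?_
  rw [Matrix.add_apply, add_smul]

theorem op_smul (r : ℂ) (M : Matrix (X N) (X N) ℂ) : op N (r • M) = r • op N M := by
  apply LinearMap.ext
  intro ψ
  funext x
  rw [LinearMap.smul_apply, Pi.smul_apply, op_apply, op_apply, Finset.smul_sum]
  refine Finset.sum_congr rfl fun y _ => ?_
  rw [Matrix.smul_apply, smul_eq_mul, mul_smul]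

theorem op_sub (M M' : Matrix (X N) (X N) ℂ) : op N (M - M') = op N M - op N M' := by
  have h := op_add (M - M') M'
  rw [sub_add_cancel] at h
  rw [h]; abel

theorem op_one : op N 1 = 1 := by
  apply LinearMap.ext
  intro ψ
  funext x
  rw [op_apply, Finset.sum_eq_single x]
  · rw [Matrix.one_apply_eq, one_smul]; rfl
  · intro y _ hy
    rw [Matrix.one_apply_ne hy.symm, zero_smul]
  · intro h
    exact absurd (Finset.mem_univ _) h

/-- the matrix of a cup-cap operator -/
noncomputable def EM (N : ℕ) (p q : Fin 4) : Matrix (X N) (X N) ℂ := 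
  fun x y => (EE p q : Module.End ℂ (X N → (X N → ℂ))) (g0 N) x y

theorem EM_apply (p q : Fin 4) (x y : X N) : 
    EM N p q x y = if x p = x q then ∑ c, ind (upd x p q c = y) else 0 := by
  unfold EM
  rw [EE_apply]
  split_ifs
  · rw [Finset.sum_apply]; rfl
  · rfl

theorem op_EM (p q : Fin 4) : op N (EM N p q) = EE p q := by
  apply LinearMap.ext
  intro ψ
  funext x
  rw [op_apply, EE_apply]
  funext w
  rw [Finset.sum_apply]
  simp only [Pi.smul_apply, smul_eq_mul, EM_apply]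
  split_ifs
  · rw [Finset.sum_apply]
    simp only [Finset.sum_mul]
    rw [Finset.sum_comm]
    exact Finset.sum_congr rfl fun c _ => sum_ind _ (fun y => ψ y w)
  · simp

theorem sum4 (f : X N → ℂ) : ∑ x, f x = ∑ i, ∑ j, ∑ k, ∑ l, f ![i, j, k, l] := by
  let e : (Fin N × Fin N × Fin N × Fin N) ≃ X N := 
    { toFun := fun t => ![t.1, t.2.1, t.2.2.1, t.2.2.2]
      invFun := fun x => (x 0, x 1, x 2, x 3)
      left_inv := fun t => rfl
      right_inv := fun x => by
        funext j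
        fin_cases j <;> rfl }
  rw [← Equiv.sum_comp e f]
  simp only [Fintype.sum_prod_type]
  rfl

theorem EM_diag (p q : Fin 4) (x : X N) : EM N p q x x = if x p = x q then 1 else 0 := by
  rw [EM_apply]
  split_ifs with h
  · rw [Finset.sum_eq_single (x p)]
    · apply ind_pos
      funext j
      unfold upd
      split_ifs with h1
      · rcases h1 with h1 | h1 <;> rw [h1]
        exact h
      · rfl
    · intro c _ hc
      apply ind_neg
      intro h1
      apply hc
      rw [← h1, upd_left]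
    · intro h1
      exact absurd (Finset.mem_univ _) h1
  · rfl

theorem tr_a : (EM N 0 1).trace = (N : ℂ) ^ 3 := by
  rw [Matrix.trace, sum4]
  have h : ∀ i j k l : Fin N, (EM N 0 1).diag ![i, j, k, l] = if i = j then 1 else 0 := 
    fun i j k l => EM_diag 0 1 _
  simp only [h]
  simp
  ring

theorem tr_b : (EM N 1 2).trace = (N : ℂ) ^ 3 := by
  rw [Matrix.trace, sum4]
  have h : ∀ i j k l : Fin N, (EM N 1 2).diag ![i, j, k, l] = if j = k then 1 else 0 := 
    fun i j k l => EM_diag 1 2 _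
  simp only [h]
  simp
  ring

theorem tr_c : (EM N 2 3).trace = (N : ℂ) ^ 3 := by
  rw [Matrix.trace, sum4]
  have h : ∀ i j k l : Fin N, (EM N 2 3).diag ![i, j, k, l] = if k = l then 1 else 0 := 
    fun i j k l => EM_diag 2 3 _
  simp only [h]
  simp
  ring

theorem tr_one : (1 : Matrix (X N) (X N) ℂ).trace = (N : ℂ) ^ 4 := by
  rw [Matrix.trace_one]
  simp

theorem ac_diag (x : X N) : (EM N 0 1 * EM N 2 3) x x = if x 0 = x 1 ∧ x 2 = x 3 then 1 else 0 := by
  have h0 : (EM N 0 1 * EM N 2 3) x x = 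
      (EE 0 1 : Module.End ℂ (X N → (X N → ℂ))) ((EE 2 3 : Module.End ℂ (X N → (X N → ℂ))) (g0 N)) x x := by
    rw [← op_g0 (EM N 0 1 * EM N 2 3), op_mul, op_EM, op_EM]
    rfl
  rw [h0, EE_apply]
  by_cases h1 : x 0 = x 1
  · rw [if_pos h1, Finset.sum_apply, Finset.sum_eq_single (x 0)]
    · have h2 : upd x 0 1 (x 0) = x := by
        funext j
        unfold upd
        split_ifs with h3
        · rcases h3 with h3 | h3 <;> rw [h3]
          exact h1
        · rfl
      rw [h2]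
      have := EM_diag (N := N) 2 3 x
      unfold EM at this
      rw [this]
      simp [h1]
    · intro c _ hc
      rw [EE_apply]
      split_ifs
      · rw [Finset.sum_apply]
        apply Finset.sum_eq_zero
        intro d _
        apply ind_neg
        intro h3
        apply hc
        have h4 := congrFun h3 0
        rw [upd_other _ _ (by decide) (by decide), upd_left] at h4
        exact h4
      · rfl
    · intro h3
      exact absurd (Finset.mem_univ _) h3
  · rw [if_neg h1, if_neg (fun h => h1 h.1)]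
    rfl

theorem tr_ac : (EM N 0 1 * EM N 2 3).trace = (N : ℂ) ^ 2 := by
  rw [Matrix.trace, sum4]
  have h : ∀ i j k l : Fin N, (EM N 0 1 * EM N 2 3).diag ![i, j, k, l] = 
      (if i = j then 1 else 0) * (if k = l then 1 else 0) := by
    intro i j k l
    refine (ac_diag _).trans ?_
    show (if i = j ∧ k = l then (1 : ℂ) else 0) = _
    split_ifs with h1 h2 h3 <;> simp_all
  simp only [h, ← Finset.mul_sum]
  simp
  ring

theorem ee0 : (ee 4 N (X N → ℂ) 0) = EE 0 1 := rfl
theorem ee1 : (ee 4 N (X N → ℂ) 1) = EE 1 2 := rfl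
theorem ee2 : (ee 4 N (X N → ℂ) 2) = EE 2 3 := rfl

theorem dat (hN : 3 ≤ N) : Dat (Matrix.traceLinearMap (X N) ℂ ℂ) (EM N 0 1) (EM N 1 2) (EM N 2 3) 
    (N : ℂ) (Ar N) where
  cyc x y := Matrix.trace_mul_comm x y
  aa := op_inj (by
    rw [op_mul, op_smul, op_EM]
    exact (isTL_ee (W := X N → ℂ) 4 N).sq 0 (by norm_num))
  bb' := op_inj (by
    rw [op_mul, op_smul, op_EM]
    exact (isTL_ee (W := X N → ℂ) 4 N).sq 1 (by norm_num))
  cc := op_inj (by
    rw [op_mul, op_smul, op_EM]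
    exact (isTL_ee (W := X N → ℂ) 4 N).sq 2 (by norm_num))
  aba := op_inj (by
    rw [op_mul, op_mul, op_EM, op_EM]
    exact (isTL_ee (W := X N → ℂ) 4 N).up 0 (by norm_num))
  bab := op_inj (by
    rw [op_mul, op_mul, op_EM, op_EM]
    exact (isTL_ee (W := X N → ℂ) 4 N).down 0 (by norm_num))
  bcb := op_inj (by
    rw [op_mul, op_mul, op_EM, op_EM]
    exact (isTL_ee (W := X N → ℂ) 4 N).up 1 (by norm_num))
  cbc := op_inj (by
    rw [op_mul, op_mul, op_EM, op_EM]
    exact (isTL_ee (W := X N → ℂ) 4 N).down 1 (by norm_num))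
  ac := op_inj (by
    rw [op_mul, op_mul, op_EM, op_EM]
    exact (isTL_ee (W := X N → ℂ) 4 N).far 0 2 (by norm_num) (by norm_num))
  hn := by
    have : N ≠ 0 := by omega
    exact_mod_cast this
  t1 := tr_one
  ta := tr_a
  tb := tr_b
  tc := tr_c
  tac := tr_ac
  hA := Ar_ne N hN
  hnA := Ar_d N hN

/-- the matrix of the word `vv` -/
noncomputable def RM (N : ℕ) : Matrix (X N) (X N) ℂ := 
  (Ar N • (1 : Matrix (X N) (X N) ℂ) + (Ar N)⁻¹ • EM N 0 1) * 
    ((Ar N • (1 : Matrix (X N) (X N) ℂ) + (Ar N)⁻¹ • EM N 1 2) * 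
      (Ar N • (1 : Matrix (X N) (X N) ℂ) + (Ar N)⁻¹ • EM N 2 3))

theorem op_RM : op N (RM N) = rho (Ar N) 4 N vv := by
  unfold RM
  rw [op_mul, op_mul, op_add, op_add, op_add, op_smul, op_smul, op_smul, op_smul, op_one, op_EM, op_EM, 
    op_EM]
  unfold rho vv lt sg
  simp only [List.map_cons, List.map_nil, List.prod_cons, List.prod_nil, mul_one, if_true, ee0, ee1, ee2]

theorem Fn_eq (N : {N : ℕ // 3 ≤ N}) (b : BB 4) (M : Matrix (X N.1) (X N.1) ℂ) (h : b N = op N.1 M) : 
    Fn (braidClosure 4) N vv b = (M * RM N.1).trace := by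
  unfold Fn Zg
  have h1 : (b N) (rho (Ar N.1) 4 N.1 vv (fun x y => ind (x = y))) = op N.1 (M * RM N.1) (g0 N.1) := by
    rw [h, op_mul, op_RM]
    rfl
  rw [h1, Matrix.trace]
  refine Finset.sum_congr rfl fun x _ => ?_
  have h2 : WW (Ar N.1) (braidClosure 4).arcs (braidClosure 4).crossings x = 1 := by
    simp [WW, braidClosure]
  rw [h2, one_mul]
  exact op_g0 _ _ _

end Tr

open Tr

/-- the first trace value -/
theorem tr_unit (N : {N : ℕ // 3 ≤ N}) : 
    Fn (braidClosure 4) N vv 1 = (N.1 : ℂ) * ev N.1 N.2 (-(T 9)) := by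
  rw [Fn_eq N 1 1 (by rw [BB_one, op_one]), one_mul, map_neg, ev_T]
  exact (dat N.2).T1

/-- the second trace value -/
theorem tr_L1 (N : {N : ℕ // 3 ≤ N}) : Fn (braidClosure 4) N vv L1 = 
    (N.1 : ℂ) * ev N.1 N.2 (-(T 4 + 1 + T (-4)) * (T 3 + T (-5))) := by
  have hdd : ev N.1 N.2 dd = (N.1 : ℂ) := by
    unfold dd
    rw [map_sub, map_neg, map_pow, map_pow, ev_T1, ev_Tm1, ← Ar_d N.1 N.2]
  obtain ⟨z, hz⟩ : ∃ z : Matrix (X N.1) (X N.1) ℂ, z = EM N.1 0 1 * EM N.1 1 2 + EM N.1 1 2 * EM N.1 0 1 - 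
    (N.1 : ℂ) • (EM N.1 0 1 + EM N.1 1 2) := ⟨_, rfl⟩
  have hzz : zz N = op N.1 z := by
    rw [hz, op_sub, op_add, op_smul, op_add, op_mul, op_mul, op_EM, op_EM]
    unfold zz
    rw [BB_sub, BB_add, BB_smul, BB_add, BB_mul, BB_mul, hdd]
    rfl
  rw [Fn_eq N L1 (EM N.1 2 3 * z - z * EM N.1 2 3) (by
    rw [op_sub, op_mul, op_mul, op_EM, ← hzz]
    unfold L1
    rw [BB_sub, BB_mul, BB_mul]
    rfl)]
  rw [map_mul, map_neg, map_add, map_add, map_add, map_one, ev_T, ev_T, ev_T, ev_T]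
  have h := (dat N.2).T2 z hz
  have e1 : (Ar N.1) ^ (-4 : ℤ) = (Ar N.1)⁻¹ ^ 4 := by
    rw [zpow_neg, inv_pow]; rfl
  have e2 : (Ar N.1) ^ (-5 : ℤ) = (Ar N.1)⁻¹ ^ 5 := by
    rw [zpow_neg, inv_pow]; rfl
  rw [e1, e2]
  exact h

end Pool.Agent.K4H70.HB
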