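import Pool.Agent.K4H70.HB.Words
import Pool.Agent.K4H70.HB.Tr

/-!
# The polynomials of the diagrams with an iterated commutator
-/

set_option autoImplicit false

namespace Pool.Agent.K4H70.HB

open LaurentPolynomial Pool.Agent.H891R2.Jones Pool.Agent.W639.RB Pool.Agent.Y463.SK

/-- the sign -/
noncomputable def sn (c : ℤ) : ℤ[T;T⁻¹] := if Even c then 1 else -1

theorem ev_sn (c : ℤ) (N : {N : ℕ // 3 ≤ N}) : 
    ev N.1 N.2 (sn c) = if Even c then (1 : ℂ) else -1 := by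
  unfold sn
  split_ifs <;> simp

theorem sn_sq (c : ℤ) : sn c * sn c = 1 := by
  unfold sn
  split_ifs <;> simp

/-- the polynomial and the functional -/
theorem ff_word (O : Outer 4) {w v : List (Bool × ℕ)} (hw : VW w) (hv : VW v) (N : {N : ℕ // 3 ≤ N}) :
    (N.1 : ℂ) * ev N.1 N.2 (ff O (w ++ v)) = 
      ev N.1 N.2 (sn (owr O + costS (w ++ v) (pat O.up)) * T (-3 * (owr O + costS (w ++ v) (pat O.up)))) * 
        Fn O N v (bb 4 w) := by
  rw [ev_ff (by norm_num) O _ (hw.append hv) N, map_mul, ev_sn, ev_T, rho_append]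
  unfold Fn
  rw [bb_apply]
  rfl

theorem Fn_word (O : Outer 4) {w v : List (Bool × ℕ)} (hw : VW w) (hv : VW v) :
    ∃ F : ℤ[T;T⁻¹], ∀ N : {N : ℕ // 3 ≤ N}, Fn O N v (bb 4 w) = (N.1 : ℂ) * ev N.1 N.2 F := by
  refine ⟨sn (owr O + costS (w ++ v) (pat O.up)) * T (3 * (owr O + costS (w ++ v) (pat O.up))) * 
    ff O (w ++ v), fun N => ?_⟩
  have h := ff_word O hw hv N
  generalize owr O + costS (w ++ v) (pat O.up) = c at *
  have e : (sn c * T (3 * c)) * (sn c * T (-3 * c)) = 1 := by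
    have : (T (3 * c) * T (-3 * c) : ℤ[T;T⁻¹]) = 1 := by
      rw [← T_add]; ring_nf; exact T_zero
    linear_combination (T (3 * c) * T (-3 * c)) * sn_sq c + this
  have e' := congrArg (ev N.1 N.2) e
  rw [map_mul, map_one] at e'
  rw [map_mul, mul_left_comm, h, ← mul_assoc, e', one_mul]

theorem Fn_SS (O : Outer 4) {v : List (Bool × ℕ)} (hv : VW v) {b : BB 4} (hb : b ∈ SS) :
    ∃ F : ℤ[T;T⁻¹], ∀ N : {N : ℕ // 3 ≤ N}, Fn O N v b = (N.1 : ℂ) * ev N.1 N.2 F := by
  have h1 : b ∈ Subalgebra.toSubmodule SS := hb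
  unfold SS at h1
  rw [Algebra.adjoin_eq_span, Submonoid.closure_eq] at h1
  induction h1 using Submodule.span_induction with
  | mem x hx =>
    obtain ⟨w, hw, rfl⟩ := hx
    exact Fn_word O hw hv
  | zero => exact ⟨0, fun N => by rw [Fn_zero, map_zero, mul_zero]⟩
  | add x y hx hy ihx ihy =>
    obtain ⟨F, hF⟩ := ihx (by
      have : x ∈ Subalgebra.toSubmodule SS := by
        unfold SS; rw [Algebra.adjoin_eq_span, Submonoid.closure_eq]; exact hx
      exact this)
    obtain ⟨G, hG⟩ := ihy (by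
      have : y ∈ Subalgebra.toSubmodule SS := by
        unfold SS; rw [Algebra.adjoin_eq_span, Submonoid.closure_eq]; exact hy
      exact this)
    exact ⟨F + G, fun N => by rw [Fn_add, hF, hG, map_add]; ring⟩
  | smul r x hx ihx =>
    obtain ⟨F, hF⟩ := ihx (by
      have : x ∈ Subalgebra.toSubmodule SS := by
        unfold SS; rw [Algebra.adjoin_eq_span, Submonoid.closure_eq]; exact hx
      exact this)
    exact ⟨r * F, fun N => by rw [Fn_smul, hF, map_mul]; ring⟩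

theorem Fn_one (O : Outer 4) {v : List (Bool × ℕ)} (hv : VW v) (N : {N : ℕ // 3 ≤ N}) : 
    ev N.1 N.2 (sn (owr O + costS v (pat O.up)) * T (-3 * (owr O + costS v (pat O.up)))) * 
      Fn O N v 1 = (N.1 : ℂ) * ev N.1 N.2 (ff O v) := by
  have h := ff_word O (w := []) (v := v) (by simp [VW]) hv N
  exact h.symm

/-- the diagrams with a word equal to `1 + q a` -/
theorem ff_sub (O : Outer 4) {w v : List (Bool × ℕ)} (hw : VW w) (hv : VW v) (hp : permL w = 1)
    (hc : ∀ U, costS w U = 0) {q : ℤ[T;T⁻¹]} {a : BB 4} (hb : bb 4 w = 1 + q • a) {F : ℤ[T;T⁻¹]}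
    (hF : ∀ N : {N : ℕ // 3 ≤ N}, Fn O N v a = (N.1 : ℂ) * ev N.1 N.2 F) :
    ff O (w ++ v) = ff O v + q * (sn (owr O + costS v (pat O.up)) * 
      T (-3 * (owr O + costS v (pat O.up)))) * F := by
  have hcost : costS (w ++ v) (pat O.up) = costS v (pat O.up) := by
    rw [costS_append, hc, hp, zero_add]; rfl
  rw [← sub_eq_zero]
  refine eq_zero_of_ev _ fun N hN => ?_
  have hN0 : (N : ℂ) ≠ 0 := by
    have : N ≠ 0 := by omega
    exact_mod_cast this
  have h1 := ff_word O hw hv ⟨N, hN⟩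
  have h2 := Fn_one O hv ⟨N, hN⟩
  rw [hcost] at h1
  generalize sn (owr O + costS v (pat O.up)) * T (-3 * (owr O + costS v (pat O.up))) = s at *
  rw [hb, Fn_add, Fn_smul, hF ⟨N, hN⟩, mul_add, h2] at h1
  simp only at h1
  have h3 : (N : ℂ) * (ev N hN (ff O (w ++ v) - (ff O v + q * s * F))) = 0 := by
    rw [map_sub, map_add, map_mul, map_mul]
    linear_combination h1
  exact (mul_eq_zero.1 h3).resolve_left hN0

/-- inserting the word changes the polynomial of any diagram by a multiple of `q` -/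
theorem ff_dvd (O : Outer 4) {v : List (Bool × ℕ)} (hv : VW v) (k r n : ℕ) : 
    (xx k * yy r)^(n+1) ∣ ff O (HW k r n ++ v) - ff O v := by
  obtain ⟨hw, _, _, a, ha, hb, _⟩ := NS_HW (p := 1) (one_dvd (xx k)) (one_dvd (yy r)) n
  rw [one_smul] at hb
  obtain ⟨F, hF⟩ := Fn_SS O hv ha
  have h := ff_sub O hw hv (HW_perm k r n) (fun U => HW_cost k r U n) hb hF
  refine ⟨(sn (owr O + costS v (pat O.up)) * T (-3 * (owr O + costS v (pat O.up)))) * F, ?_⟩
  rw [h]; ring

noncomputable def F1 : ℤ[T;T⁻¹] := -(T 4 + 1 + T (-4)) * (T 3 + T (-5))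

theorem vv_valid : VW vv := by
  intro x hx
  simp [vv] at hx
  rcases hx with rfl | rfl | rfl <;> norm_num

theorem cost_vv : owr (braidClosure 4) + costS vv (pat (braidClosure 4).up) = 3 := by
  have h1 : owr (braidClosure 4) = 0 := rfl
  rw [h1]
  simp [vv, costS, pat, braidClosure, Equiv.swap_apply_def]

theorem ff_vv : ff (braidClosure 4) vv = 1 := by
  rw [← sub_eq_zero]
  refine eq_zero_of_ev _ fun N hN => ?_
  have hN0 : (N : ℂ) ≠ 0 := by
    have : N ≠ 0 := by omega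
    exact_mod_cast this
  have h := Fn_one (braidClosure 4) vv_valid ⟨N, hN⟩
  rw [cost_vv, tr_unit] at h
  have hs : sn 3 = -1 := by unfold sn; rw [if_neg (by decide)]
  rw [hs] at h
  simp only at h
  have h2 : ev N hN (-1 * T (-3 * 3)) * ev N hN (-T 9) = 1 := by
    rw [← map_mul]
    have : (-1 * T (-3 * 3) * -T 9 : ℤ[T;T⁻¹]) = 1 := by
      rw [neg_one_mul, neg_mul_neg, ← T_add]; norm_num
    rw [this, map_one]
  rw [map_sub, map_one, sub_eq_zero]
  refine mul_left_cancel₀ hN0 ?_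
  rw [← h]
  linear_combination (N : ℂ) * h2

theorem exists_F (k r n : ℕ) : ∃ F : ℤ[T;T⁻¹], ff (braidClosure 4) (HW k r n ++ vv) = 
    1 + (xx k * yy r)^(n+1) * (-T (-9)) * (kk^n * F1 + (T 1 - 1) * F) := by
  obtain ⟨hw, _, _, a, ha, hb, c, hc, hac⟩ := NS_HW (p := T 1 - 1) (pi_dvd_x k) (pi_dvd_y r) n
  rw [one_smul] at hb
  obtain ⟨F, hF⟩ := Fn_SS (braidClosure 4) vv_valid hc
  refine ⟨F, ?_⟩
  have h1 : ∀ N : {N : ℕ // 3 ≤ N}, Fn (braidClosure 4) N vv a = 
      (N.1 : ℂ) * ev N.1 N.2 (kk^n * F1 + (T 1 - 1) * F) := by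
    intro N
    have ht : Fn (braidClosure 4) N vv L1 = (N.1 : ℂ) * ev N.1 N.2 F1 := tr_L1 N
    rw [hac, Fn_add, Fn_smul, Fn_smul, ht, hF, map_add, map_mul (ev N.1 N.2) (kk^n) F1, 
      map_mul (ev N.1 N.2) (T 1 - 1) F]
    ring
  have h := ff_sub (braidClosure 4) hw vv_valid (HW_perm k r n) (fun U => HW_cost k r U n) hb h1
  have hs : sn 3 = -1 := by unfold sn; rw [if_neg (by decide)]
  rw [h, cost_vv, ff_vv, hs]
  have : (-3 * 3 : ℤ) = -9 := by norm_num
  rw [this]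
  ring

end Pool.Agent.K4H70.HB
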