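import Pool.Agent.K4H70.HB.KTr
import Pool.Agent.K4H70.HB.Func

/-!
# Knotoid closures
-/

set_option autoImplicit false

namespace Pool.Agent.K4H70.HB

open LaurentPolynomial Pool.Agent.H891R2.Jones Pool.Agent.W639.RB Pool.Agent.Y463.SK

/-- The outside of the box for the knotoid closure of braids on four strands: the upper ends of the
first two strands are joined with their lower ends, the upper end of the third strand is joined with the
lower end of the fourth strand; the tail is the lower end of the third strand, the head the point `4`,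
to which the upper end of the fourth strand is joined. -/
def knotoidClosure : Outer 4 where
  P := Fin 5
  arcs := []
  crossings := []
  lower := ![0, 1, 2, 3]
  upper := ![0, 1, 3, 4]
  up := fun _ => true

/-- the word `σ_1 σ_2` -/
def v2 : List (Bool × ℕ) := [(true, 0), (true, 1)]

theorem v2_valid : VW v2 := by
  intro x hx
  simp [v2] at hx
  rcases hx with rfl | rfl <;> norm_num

theorem cost_v2 : owr knotoidClosure + costS v2 (pat knotoidClosure.up) = 2 := by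
  have h1 : owr knotoidClosure = 0 := rfl
  rw [h1]
  simp [v2, costS, pat, knotoidClosure, Equiv.swap_apply_def]

open Tr KTr

/-- the matrix of the word `v2` -/
noncomputable def RM2 (N : ℕ) : Matrix (X N) (X N) ℂ := 
  (Ar N • (1 : Matrix (X N) (X N) ℂ) + (Ar N)⁻¹ • EM N 0 1) * 
    (Ar N • (1 : Matrix (X N) (X N) ℂ) + (Ar N)⁻¹ • EM N 1 2)

theorem op_RM2 (N : ℕ) : op N (RM2 N) = rho (Ar N) 4 N v2 := by
  unfold RM2
  simp only [op_mul, op_add, op_smul, op_one, op_EM]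
  unfold rho v2 lt sg
  simp only [List.map_cons, List.map_nil, List.prod_cons, List.prod_nil, mul_one, if_true, ee0, ee1]

theorem par_RM2 (N : ℕ) : Par (RM2 N) := 
  ((Par.one.smul _).add ((par_EM 0 1 (Or.inl ⟨rfl, rfl⟩)).smul _)).mul 
    ((Par.one.smul _).add ((par_EM 1 2 (Or.inr (Or.inl ⟨rfl, rfl⟩))).smul _))

theorem Fn_k (N : {N : ℕ // 3 ≤ N}) (b : BB 4) (M : Matrix (X N.1) (X N.1) ℂ) (h : b N = op N.1 M) 
    (hM : Par M) : Fn knotoidClosure N v2 b = (M * RM2 N.1 * VM N.1).trace := by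
  rw [← sum_five _ (hM.mul (par_RM2 N.1))]
  unfold Fn Zg
  have h1 : (b N) (rho (Ar N.1) 4 N.1 v2 (fun x y => ind (x = y))) = op N.1 (M * RM2 N.1) (g0 N.1) := by
    rw [h, op_mul, op_RM2]
    rfl
  rw [h1]
  refine Finset.sum_congr rfl fun x _ => ?_
  have h2 : WW (Ar N.1) knotoidClosure.arcs knotoidClosure.crossings x = 1 := by
    simp [WW, knotoidClosure]
  rw [h2, one_mul]
  exact op_g0 _ _ _

theorem ktr_unit (N : {N : ℕ // 3 ≤ N}) : 
    Fn knotoidClosure N v2 1 = (N.1 : ℂ) * ev N.1 N.2 (T 6) := by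
  rw [Fn_k N 1 1 (by rw [BB_one, op_one]) Par.one, one_mul, ev_T]
  exact (datV N.2).T1

/-- the value at `L1` -/
noncomputable def F2 : ℤ[T;T⁻¹] := (dd - 1) * (2 - dd^2)

theorem ktr_L1 (N : {N : ℕ // 3 ≤ N}) : Fn knotoidClosure N v2 L1 = 
    (N.1 : ℂ) * ev N.1 N.2 F2 := by
  have hdd : ev N.1 N.2 dd = (N.1 : ℂ) := by
    unfold dd
    rw [map_sub, map_neg, map_pow, map_pow, ev_T1, ev_Tm1, ← Ar_d N.1 N.2]
  obtain ⟨z, hz⟩ : ∃ z : Matrix (X N.1) (X N.1) ℂ, z = EM N.1 0 1 * EM N.1 1 2 + EM N.1 1 2 * EM N.1 0 1 - 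
    (N.1 : ℂ) • (EM N.1 0 1 + EM N.1 1 2) := ⟨_, rfl⟩
  have p01 : Par (EM N.1 0 1) := par_EM 0 1 (Or.inl ⟨rfl, rfl⟩)
  have p12 : Par (EM N.1 1 2) := par_EM 1 2 (Or.inr (Or.inl ⟨rfl, rfl⟩))
  have p23 : Par (EM N.1 2 3) := par_EM 2 3 (Or.inr (Or.inr ⟨rfl, rfl⟩))
  have pz : Par z := by
    rw [hz]
    exact ((p01.mul p12).add (p12.mul p01)).sub ((p01.add p12).smul _)
  have hzz : zz N = op N.1 z := by
    rw [hz, op_sub, op_add, op_smul, op_add, op_mul, op_mul, op_EM, op_EM]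
    unfold zz
    rw [BB_sub, BB_add, BB_smul, BB_add, BB_mul, BB_mul, hdd]
    rfl
  rw [Fn_k N L1 (EM N.1 2 3 * z - z * EM N.1 2 3) (by
    rw [op_sub, op_mul, op_mul, op_EM, ← hzz]
    unfold L1
    rw [BB_sub, BB_mul, BB_mul]
    rfl) ((p23.mul pz).sub (pz.mul p23))]
  unfold F2
  rw [map_mul, map_sub, map_sub, map_pow, hdd, map_one, map_ofNat]
  exact (datV N.2).T2 z hz

theorem ff_v2 : ff knotoidClosure v2 = 1 := by
  rw [← sub_eq_zero]
  refine eq_zero_of_ev _ fun N hN => ?_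
  have hN0 : (N : ℂ) ≠ 0 := by
    have : N ≠ 0 := by omega
    exact_mod_cast this
  have h := Fn_one knotoidClosure v2_valid ⟨N, hN⟩
  rw [cost_v2, ktr_unit] at h
  have hs : sn 2 = 1 := by unfold sn; rw [if_pos (by decide)]
  rw [hs] at h
  simp only at h
  have h2 : ev N hN (1 * T (-3 * 2)) * ev N hN (T 6) = 1 := by
    rw [← map_mul]
    have : (1 * T (-3 * 2) * T 6 : ℤ[T;T⁻¹]) = 1 := by
      rw [one_mul, ← T_add]; norm_num
    rw [this, map_one]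
  rw [map_sub, map_one, sub_eq_zero]
  refine mul_left_cancel₀ hN0 ?_
  rw [← h]
  linear_combination (N : ℂ) * h2

theorem exists_K (k r n : ℕ) : ∃ F : ℤ[T;T⁻¹], ff knotoidClosure (HW k r n ++ v2) = 
    1 + (xx k * yy r)^(n+1) * (T (-6) * (kk^n * F2 + (1 - T (-4)) * F)) := by
  have d1 : (1 - T (-4) : ℤ[T;T⁻¹]) ∣ xx k := ⟨gx k, xx_eq k⟩
  have d2 : (1 - T (-4) : ℤ[T;T⁻¹]) ∣ yy r := ⟨gy r, yy_eq r⟩
  obtain ⟨hw, _, _, a, ha, hb, c, hc, hac⟩ := NS_HW (p := 1 - T (-4)) d1 d2 n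
  rw [one_smul] at hb
  obtain ⟨F, hF⟩ := Fn_SS knotoidClosure v2_valid hc
  refine ⟨F, ?_⟩
  have h1 : ∀ N : {N : ℕ // 3 ≤ N}, Fn knotoidClosure N v2 a = 
      (N.1 : ℂ) * ev N.1 N.2 (kk^n * F2 + (1 - T (-4)) * F) := by
    intro N
    rw [hac, Fn_add, Fn_smul, Fn_smul, ktr_L1, hF, map_add, map_mul (ev N.1 N.2) (kk^n) F2, 
      map_mul (ev N.1 N.2) (1 - T (-4)) F]
    ring
  have h := ff_sub knotoidClosure hw v2_valid (HW_perm k r n) (fun U => HW_cost k r U n) hb h1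
  have hs : sn 2 = 1 := by unfold sn; rw [if_pos (by decide)]
  rw [h, cost_v2, ff_v2, hs]
  have : (-3 * 2 : ℤ) = -6 := by norm_num
  rw [this]
  ring

/-! ### exponents which are not multiples of four -/

/-- the unit `c T` -/
noncomputable def un (c : ℂ) (hc : c ≠ 0) : (ℂ[T;T⁻¹])ˣ := 
  Units.mk (C c * T 1) (C c⁻¹ * T (-1)) 
    (by rw [mul_mul_mul_comm, ← map_mul, mul_inv_cancel₀ hc, ← T_add]; simp) 
    (by rw [mul_mul_mul_comm, ← map_mul, inv_mul_cancel₀ hc, ← T_add]; simp)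

theorem un_zpow (c : ℂ) (hc : c ≠ 0) (k : ℤ) : ((un c hc ^ k : (ℂ[T;T⁻¹])ˣ) : ℂ[T;T⁻¹]) = C (c ^ k) * T k := by
  rcases k with k | k
  · show ((un c hc ^ k : (ℂ[T;T⁻¹])ˣ) : ℂ[T;T⁻¹]) = _
    rw [Units.val_pow_eq_pow_val]
    show (C c * T 1)^k = _
    rw [mul_pow, ← map_pow, T_pow]
    simp
  · rw [zpow_negSucc, ← inv_pow, Units.val_pow_eq_pow_val]
    show (C c⁻¹ * T (-1))^(k+1) = _
    rw [mul_pow, ← map_pow, T_pow, zpow_negSucc, inv_pow]
    congr 2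
    rw [Int.negSucc_eq]; push_cast; ring

/-- the substitution `A ↦ c A` -/
noncomputable def sub' (c : ℂ) (hc : c ≠ 0) : ℤ[T;T⁻¹] →+* ℂ[T;T⁻¹] := 
  LaurentPolynomial.eval₂ (Int.castRingHom _) (un c hc)

theorem sub'_T (c : ℂ) (hc : c ≠ 0) (k : ℤ) : sub' c hc (T k) = C (c ^ k) * T k := by
  unfold sub'
  rw [LaurentPolynomial.eval₂_T, un_zpow]

noncomputable def io : ℤ[T;T⁻¹] →+* ℂ[T;T⁻¹] := sub' 1 one_ne_zero
noncomputable def ps : ℤ[T;T⁻¹] →+* ℂ[T;T⁻¹] := sub' Complex.I Complex.I_ne_zero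

theorem io_T (k : ℤ) : io (T k) = T k := by
  unfold io
  rw [sub'_T, one_zpow, map_one, one_mul]

theorem ps_T (k : ℤ) : ps (T k) = C (Complex.I ^ k) * T k := sub'_T _ _ _

theorem I4 : Complex.I ^ (-4 : ℤ) = 1 := by
  rw [zpow_neg]
  have : Complex.I ^ (4 : ℤ) = 1 := by
    rw [show (4 : ℤ) = ((4 : ℕ) : ℤ) from rfl, zpow_natCast, Complex.I_pow_four]
  rw [this, inv_one]

theorem I2 : Complex.I ^ (-2 : ℤ) = -1 := by
  rw [zpow_neg]
  have : Complex.I ^ (2 : ℤ) = -1 := by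
    rw [show (2 : ℤ) = ((2 : ℕ) : ℤ) from rfl, zpow_natCast, Complex.I_sq]
  rw [this]; norm_num

theorem ps_m4 : ps (T (-4)) = io (T (-4)) := by
  rw [ps_T, io_T, I4, map_one, one_mul]

theorem ps_4 : ps (T 4) = io (T 4) := by
  have h : ∀ f : ℤ[T;T⁻¹] →+* ℂ[T;T⁻¹], f (T 4) * f (T (-4)) = 1 := by
    intro f
    rw [← map_mul, ← T_add]; norm_num
  have h1 := h ps
  have h2 := h io
  rw [ps_m4] at h1
  have h3 : io (T (-4)) ≠ 0 := by
    intro h0
    rw [h0, mul_zero] at h2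
    exact zero_ne_one h2
  exact mul_right_cancel₀ h3 (h1.trans h2.symm)

theorem ps_m2 : ps (T (-2)) = - io (T (-2)) := by
  rw [ps_T, io_T, I2, map_neg, map_one, neg_one_mul]

theorem ps_x (k : ℕ) : ps (xx k) = - io (xx k) := by
  unfold xx
  simp only [map_mul, map_sub, map_one, map_sum, map_pow, T_m8, ps_m4, ps_m2]
  ring

theorem ps_y (k : ℕ) : ps (yy k) = io (yy k) := by
  unfold yy
  simp only [map_mul, map_sub, map_one, map_sum, map_pow, T_m12, ps_m4]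

/-- evaluation -/
noncomputable def ec (c : ℂ) (hc : c ≠ 0) : ℂ[T;T⁻¹] →+* ℂ := 
  LaurentPolynomial.eval₂ (RingHom.id ℂ) (Units.mk0 c hc)

theorem ec_T (c : ℂ) (hc : c ≠ 0) (k : ℤ) : ec c hc (T k) = c ^ k := by
  unfold ec
  rw [LaurentPolynomial.eval₂_T]
  simp

theorem ec_C (c : ℂ) (hc : c ≠ 0) (k : ℂ) : ec c hc (C k) = k := by
  unfold ec
  rw [LaurentPolynomial.eval₂_C]
  rfl

theorem io_x_ne {k : ℕ} (hk : 0 < k) : io (xx k) ≠ 0 := by
  intro h
  have h1 := congrArg (ec 2 (by norm_num)) h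
  have h2 : (ec 2 (by norm_num)) (io (xx k)) = ((((1 : ℝ)/4 * (1 - 1/16)) * ∑ j ∈ Finset.range k, ((1 : ℝ)/256)^j : ℝ) : ℂ) := by
    unfold xx
    simp only [map_mul, map_sub, map_one, map_sum, map_pow, io_T, ec_T]
    push_cast
    norm_num
  rw [h2, map_zero] at h1
  have h3 : ((1 : ℝ)/4 * (1 - 1/16)) * ∑ j ∈ Finset.range k, ((1 : ℝ)/256)^j = 0 := by exact_mod_cast h1
  have h4 : 0 < ∑ j ∈ Finset.range k, ((1 : ℝ)/256)^j := 
    Finset.sum_pos (fun j _ => by positivity) ⟨0, Finset.mem_range.2 hk⟩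
  have h5 : (0 : ℝ) < ((1 : ℝ)/4 * (1 - 1/16)) := by norm_num
  exact absurd h3 (mul_pos h5 h4).ne'

theorem io_y_ne {k : ℕ} (hk : 0 < k) : io (yy k) ≠ 0 := by
  intro h
  have h1 := congrArg (ec 2 (by norm_num)) h
  have h2 : (ec 2 (by norm_num)) (io (yy k)) = ((((1 : ℝ)/16 * (1 - 1/16)) * ∑ j ∈ Finset.range k, ((1 : ℝ)/4096)^j : ℝ) : ℂ) := by
    unfold yy
    simp only [map_mul, map_sub, map_one, map_sum, map_pow, io_T, ec_T]
    push_cast
    norm_num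
  rw [h2, map_zero] at h1
  have h3 : ((1 : ℝ)/16 * (1 - 1/16)) * ∑ j ∈ Finset.range k, ((1 : ℝ)/4096)^j = 0 := by exact_mod_cast h1
  have h4 : 0 < ∑ j ∈ Finset.range k, ((1 : ℝ)/4096)^j := 
    Finset.sum_pos (fun j _ => by positivity) ⟨0, Finset.mem_range.2 hk⟩
  have h5 : (0 : ℝ) < ((1 : ℝ)/16 * (1 - 1/16)) := by norm_num
  exact absurd h3 (mul_pos h5 h4).ne'

/-- the polynomial has exponents which are not multiples of four -/
theorem not_four {k r n : ℕ} (hk : 0 < k) (hr : 0 < r) (F : ℤ[T;T⁻¹]) : 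
    1 + (xx k * yy r)^(n+1) * (T (-6) * (kk^n * F2 + (1 - T (-4)) * F)) ∉ 
      Subring.closure {(T 4 : ℤ[T;T⁻¹]), T (-4)} := by
  intro h
  have hle : Subring.closure {(T 4 : ℤ[T;T⁻¹]), T (-4)} ≤ ps.eqLocus io := by
    rw [Subring.closure_le]
    rintro x (rfl | rfl)
    · exact ps_4
    · exact ps_m4
  have h1 : ps _ = io _ := hle h
  rw [map_add, map_add, map_one, map_one, map_mul ps, map_mul io, map_pow ps, map_pow io, map_mul ps,
    map_mul io, ps_x, ps_y] at h1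
  have h2 := add_left_cancel h1
  have hq : io (xx k) * io (yy r) ≠ 0 := mul_ne_zero (io_x_ne hk) (io_y_ne hr)
  have e : (-io (xx k) * io (yy r))^(n+1) = (io (xx k) * io (yy r))^(n+1) * (-1)^(n+1) := by
    rw [← mul_pow]; congr 1; ring
  rw [e, mul_assoc] at h2
  have h3 := mul_left_cancel₀ (pow_ne_zero _ hq) h2
  have h4 := congrArg (ec 1 one_ne_zero) h3
  have hd1 : ec 1 one_ne_zero (io dd) = -2 := by
    rw [dd_eq, map_sub, map_neg, io_T, io_T, map_sub, map_neg, ec_T, ec_T]; norm_num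
  have hd2 : ec 1 one_ne_zero (ps dd) = 2 := by
    rw [dd_eq, map_sub, map_neg, ps_m2, io_T, ps_T, map_sub, map_neg, map_neg, map_mul, ec_C, ec_T, ec_T, 
      one_zpow, one_zpow]
    have : Complex.I ^ (2 : ℤ) = -1 := by
      rw [show (2 : ℤ) = ((2 : ℕ) : ℤ) from rfl, zpow_natCast, Complex.I_sq]
    rw [this]; norm_num
  have h6 : Complex.I ^ (-6 : ℤ) = -1 := by
    rw [show (-6 : ℤ) = -4 + -2 by norm_num, zpow_add₀ Complex.I_ne_zero, I4, I2]; norm_num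
  unfold kk F2 at h4
  simp only [map_mul, map_add, map_sub, map_pow, map_one, map_ofNat, map_neg, ps_m4, io_T, ec_T, ps_T, ec_C,
    one_zpow, hd1, hd2, h6, sub_self, zero_mul, add_zero, mul_one, one_mul] at h4
  norm_num at h4
  have h7 : ((-2 : ℂ))^n = (-1)^n * 2^n := by rw [← mul_pow]; norm_num
  rw [h7, pow_succ] at h4
  have h8 : ((-1 : ℂ))^n * 2^n ≠ 0 := mul_ne_zero (pow_ne_zero _ (by norm_num)) (pow_ne_zero _ (by norm_num))
  apply h8
  linear_combination (-1/8 : ℂ) * h4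

end Pool.Agent.K4H70.HB
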