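import Pool.Agent.K4H70.HB.Tr

/-!
# Trace values for knotoid closures
-/

set_option autoImplicit false

namespace Pool.Agent.K4H70.HB

open LaurentPolynomial Pool.Agent.H891R2.Jones Pool.Agent.W639.RB Pool.Agent.Y463.SK

namespace KTr

open Tr

section abstract
variable {B : Type*} [Ring B] [Algebra ℂ B]

/-- a further element `v`, the virtual crossing of the last two strands -/
structure DatV (τ : B →ₗ[ℂ] ℂ) (a b c : B) (n A : ℂ) (v : B) : Prop where
  d : Dat τ a b c n A
  va : v * a = a * v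
  vc : v * c = c
  cv : c * v = c
  bvb : b * v * b = b
  tv : τ v = n ^ 3
  tav : τ (a * v) = n ^ 2

variable {τ : B →ₗ[ℂ] ℂ} {a b c : B} {n A : ℂ} {v : B}

theorem DatV.tbv (h : DatV τ a b c n A v) : τ (b * v) = n ^ 2 := by
  have h1 : n * τ (b * v) = n ^ 3 := by
    rw [← smul_eq_mul, ← map_smul, ← smul_mul_assoc, ← h.d.bb', mul_assoc, h.d.cyc, h.bvb, h.d.tb]
  apply mul_left_cancel₀ h.d.hn
  rw [h1]; ring

theorem DatV.tabv (h : DatV τ a b c n A v) : τ (a * b * v) = n := by
  have h1 : n * τ (a * b * v) = n ^ 2 := by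
    rw [← smul_eq_mul, ← map_smul, ← smul_mul_assoc, ← smul_mul_assoc, ← h.d.aa, mul_assoc, mul_assoc,
      h.d.cyc]
    have : a * (b * v) * a = a * v := by
      rw [mul_assoc a (b * v) a, mul_assoc b v a, h.va, ← mul_assoc, ← mul_assoc, h.d.aba]
    rw [this, h.tav]
  apply mul_left_cancel₀ h.d.hn
  rw [h1]; ring

theorem DatV.tacbv (h : DatV τ a b c n A v) : τ (a * c * b * v) = n := by
  have h1 : n * τ (a * c * b * v) = n * n := by
    have e1 : n • (a * c * b * v) = (a * c * b) * (b * v) := by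
      rw [← mul_assoc, mul_assoc (a * c) b b, h.d.bb', mul_smul_comm, smul_mul_assoc]
    have e2 : (b * v) * (a * c * b) = b * (a * c * b) := by
      have : v * (a * c * b) = a * c * b := by
        rw [← mul_assoc, ← mul_assoc, h.va, mul_assoc a v c, h.vc]
      rw [mul_assoc, this]
    have e3 : τ (b * (a * c * b)) = n * n := by
      rw [h.d.cyc, mul_assoc (a * c) b b, h.d.bb', mul_smul_comm, map_smul, h.d.tacb, smul_eq_mul]
    rw [← smul_eq_mul, ← map_smul, e1, h.d.cyc, e2, e3]
  exact mul_left_cancel₀ h.d.hn h1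

theorem DatV.tbacbv (h : DatV τ a b c n A v) : τ (b * (a * c * b) * v) = n := by
  have h1 : n * τ (b * (a * c * b) * v) = n * n := by
    have e1 : n • (b * (a * c * b) * v) = (b * (a * c * b)) * (b * v) := by
      have : b * (a * c * b) * b = n • (b * (a * c * b)) := by
        rw [mul_assoc b (a * c * b) b, mul_assoc (a * c) b b, h.d.bb', mul_smul_comm, mul_smul_comm]
      rw [← mul_assoc (b * (a * c * b)) b v, this, smul_mul_assoc]
    have e2 : (b * v) * (b * (a * c * b)) = b * (a * c * b) := by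
      rw [← mul_assoc, h.bvb]
    have e3 : τ (b * (a * c * b)) = n * n := by
      rw [h.d.cyc, mul_assoc (a * c) b b, h.d.bb', mul_smul_comm, map_smul, h.d.tacb, smul_eq_mul]
    rw [← smul_eq_mul, ← map_smul, e1, h.d.cyc, e2, e3]
  exact mul_left_cancel₀ h.d.hn h1

theorem DatV.T1 (h : DatV τ a b c n A v) : 
    τ (((A • (1 : B) + A⁻¹ • a) * (A • (1 : B) + A⁻¹ • b)) * v) = n * A ^ 6 := by
  have e : ((A • (1 : B) + A⁻¹ • a) * (A • (1 : B) + A⁻¹ • b)) * v = 
      (A * A) • v + (A * A⁻¹) • (b * v) + (A⁻¹ * A) • (a * v) + (A⁻¹ * A⁻¹) • (a * b * v) := by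
    simp only [mul_add, add_mul, smul_mul_assoc, mul_smul_comm, smul_smul, mul_one, one_mul]
    module
  rw [e]
  simp only [map_add, map_smul, smul_eq_mul, h.tv, h.tbv, h.tav, h.tabv]
  have hA := h.d.hA
  rw [h.d.hnA]
  field_simp
  ring

theorem DatV.T2 (h : DatV τ a b c n A v) (z : B) (hz : z = a * b + b * a - n • (a + b)) : 
    τ ((c * z - z * c) * ((A • (1 : B) + A⁻¹ • a) * (A • (1 : B) + A⁻¹ • b)) * v) = 
      n * ((n - 1) * (2 - n ^ 2)) := by
  have za : z * a = (1 - n ^ 2) • a := by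
    rw [hz, sub_mul, add_mul, h.d.aba, mul_assoc b a a, h.d.aa, smul_mul_assoc, add_mul, h.d.aa, mul_smul_comm]
    module
  have zb : z * b = (1 - n ^ 2) • b := by
    rw [hz, sub_mul, add_mul, h.d.bab, mul_assoc a b b, h.d.bb', smul_mul_assoc, add_mul, h.d.bb', mul_smul_comm]
    module
  have tzc : τ (z * c) = 2 * n - 2 * n ^ 3 := by
    have : τ (b * a * c) = n := by rw [mul_assoc, h.d.cyc, h.d.tacb]
    rw [hz, sub_mul, add_mul, smul_mul_assoc, add_mul, map_sub, map_add, map_smul, map_add, h.d.tabc, this,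
      h.d.tac, h.d.tbc, smul_eq_mul]
    ring
  obtain ⟨P, hP⟩ : ∃ P : B, P = (A • (1 : B) + A⁻¹ • a) * (A • (1 : B) + A⁻¹ • b) := ⟨_, rfl⟩
  have hA := h.d.hA
  have hP' : P = (A ^ 2) • (1 : B) + a + b + (A⁻¹ ^ 2) • (a * b) := by
    rw [hP]
    simp only [mul_add, add_mul, smul_mul_assoc, mul_smul_comm, smul_smul, mul_one, one_mul]
    match_scalars <;> field_simp
  rw [← hP]
  have f1 : τ (c * z * P * v) = A ^ 2 * (2 * n - 2 * n ^ 3) + (1 - n ^ 2) * n ^ 2 + (1 - n ^ 2) * n ^ 2 + 
      A⁻¹ ^ 2 * ((1 - n ^ 2) * n) := by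
    have e1 : τ (c * z * P * v) = τ (c * (z * P)) := by
      have : c * z * P * v = c * (z * P * v) := by simp only [mul_assoc]
      rw [this, h.d.cyc, mul_assoc (z * P) v c, h.vc, h.d.cyc]
    have e2 : z * P = (A ^ 2) • z + (1 - n ^ 2) • a + (1 - n ^ 2) • b + (A⁻¹ ^ 2) • ((1 - n ^ 2) • (a * b)) := by
      rw [hP']
      simp only [mul_add, mul_smul_comm, mul_one]
      rw [← mul_assoc z a b, za, zb, smul_mul_assoc]
    rw [e1, e2, h.d.cyc]
    simp only [add_mul, smul_mul_assoc, map_add, map_smul, smul_eq_mul, tzc, h.d.tac, h.d.tbc, h.d.tabc]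
  have f2 : τ (z * c * P * v) = A ^ 2 * (2 * n - 2 * n ^ 3) + (n + n - n * n - n * n ^ 2) + 
      (1 - n ^ 2) * n ^ 2 + A⁻¹ ^ 2 * ((1 - n ^ 2) * n) := by
    have e2 : z * c * P * v = (A ^ 2) • (z * c) + z * c * b * v + (1 - n ^ 2) • (a * c) + 
        (A⁻¹ ^ 2) • ((1 - n ^ 2) • (a * c * b * v)) := by
      rw [hP']
      have e3 : z * c * a = (1 - n ^ 2) • (a * c) := by
        rw [mul_assoc, ← h.d.ac, ← mul_assoc, za, smul_mul_assoc]
      simp only [mul_add, mul_smul_comm, mul_one, add_mul, smul_mul_assoc]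
      rw [← mul_assoc (z * c) a b, e3, smul_mul_assoc, smul_mul_assoc, smul_mul_assoc, mul_assoc z c v, h.cv, 
        mul_assoc a c v, h.cv]
      abel
    have e4 : τ (z * c * b * v) = n + n - n * n - n * n ^ 2 := by
      have e5 : z * c * b * v = a * b * v + b * (a * c * b) * v - n • (a * c * b * v) - n • (b * v) := by
        have g1 : a * b * c * b = a * b := by rw [mul_assoc a b c, mul_assoc a (b * c) b, h.d.bcb]
        have g2 : b * a * c * b = b * (a * c * b) := by simp only [mul_assoc]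
        rw [hz]
        simp only [sub_mul, add_mul, smul_mul_assoc, smul_add]
        rw [g1, g2, h.d.bcb]
        abel
      rw [e5]
      simp only [map_add, map_sub, map_smul, smul_eq_mul, h.tabv, h.tbacbv, h.tacbv, h.tbv]
    rw [e2]
    simp only [map_add, map_smul, smul_eq_mul, tzc, e4, h.d.tac, h.tacbv]
  have e0 : (c * z - z * c) * P * v = c * z * P * v - z * c * P * v := by
    simp only [sub_mul]
  rw [e0, map_sub, f1, f2]
  rw [h.d.hnA]
  field_simp
  ring

end abstract

/-! ### the virtual crossing -/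

variable {N : ℕ}

/-- exchange of the last two colours -/
def sw (x : X N) : X N := x ∘ Equiv.swap 2 3

theorem sw_sw (x : X N) : sw (sw x) = x := by
  funext j
  simp [sw]

/-- the operator of the virtual crossing -/
noncomputable def VO (N : ℕ) : Module.End ℂ (X N → (X N → ℂ)) where
  toFun ψ := fun x => ψ (sw x)
  map_add' _ _ := rfl
  map_smul' _ _ := rfl

noncomputable def VM (N : ℕ) : Matrix (X N) (X N) ℂ := fun x y => ind (sw x = y)

theorem op_VM : op N (VM N) = VO N := by
  apply LinearMap.ext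
  intro ψ
  funext x
  rw [op_apply]
  funext w
  rw [Finset.sum_apply]
  exact sum_ind (sw x) (fun y => ψ y w)

theorem mul_VM (M : Matrix (X N) (X N) ℂ) (x : X N) : (M * VM N) x x = M x (sw x) := by
  rw [Matrix.mul_apply]
  have : ∀ y, M x y * VM N y x = M x y * ind (y = sw x) := by
    intro y
    congr 1
    unfold VM
    apply ind_congr
    constructor
    · intro h; rw [← h, sw_sw]
    · intro h; rw [h, sw_sw]
  simp only [this]
  exact sum_ind' (sw x) (fun y => M x y)

theorem va' : (VM N) * (EM N 0 1) = (EM N 0 1) * (VM N) := by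
  apply op_inj
  rw [op_mul, op_mul, op_EM, op_VM]
  apply LinearMap.ext
  intro ψ
  funext x
  show (EE 0 1 : Module.End ℂ (X N → (X N → ℂ))) ψ (sw x) = 
    (EE 0 1 : Module.End ℂ (X N → (X N → ℂ))) (fun x => ψ (sw x)) x
  rw [EE_apply, EE_apply]
  have h1 : (sw x 0 = sw x 1) ↔ (x 0 = x 1) := Iff.rfl
  by_cases h : x 0 = x 1
  · rw [if_pos (h1.2 h), if_pos h]
    refine Finset.sum_congr rfl fun c _ => ?_
    congr 1
    funext j
    fin_cases j <;> rfl
  · rw [if_neg (fun h2 => h (h1.1 h2)), if_neg h]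

theorem vc' : (VM N) * (EM N 2 3) = EM N 2 3 := by
  apply op_inj
  rw [op_mul, op_EM, op_VM]
  apply LinearMap.ext
  intro ψ
  funext x
  show (EE 2 3 : Module.End ℂ (X N → (X N → ℂ))) ψ (sw x) = 
    (EE 2 3 : Module.End ℂ (X N → (X N → ℂ))) ψ x
  rw [EE_apply, EE_apply]
  have h1 : (sw x 2 = sw x 3) ↔ (x 2 = x 3) := by
    show x 3 = x 2 ↔ _
    exact eq_comm
  by_cases h : x 2 = x 3
  · rw [if_pos (h1.2 h), if_pos h]
    refine Finset.sum_congr rfl fun c _ => ?_
    congr 1
    funext j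
    fin_cases j <;> rfl
  · rw [if_neg (fun h2 => h (h1.1 h2)), if_neg h]

theorem cv' : (EM N 2 3) * (VM N) = EM N 2 3 := by
  apply op_inj
  rw [op_mul, op_EM, op_VM]
  apply LinearMap.ext
  intro ψ
  funext x
  show (EE 2 3 : Module.End ℂ (X N → (X N → ℂ))) (fun x => ψ (sw x)) x = 
    (EE 2 3 : Module.End ℂ (X N → (X N → ℂ))) ψ x
  rw [EE_apply, EE_apply]
  by_cases h : x 2 = x 3
  · rw [if_pos h, if_pos h]
    refine Finset.sum_congr rfl fun c _ => ?_
    congr 1
    funext j
    fin_cases j <;> rfl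
  · rw [if_neg h, if_neg h]

theorem bvb' : (EM N 1 2) * (VM N) * (EM N 1 2) = EM N 1 2 := by
  apply op_inj
  rw [op_mul, op_mul, op_EM, op_VM]
  apply LinearMap.ext
  intro ψ
  funext x
  show (EE 1 2 : Module.End ℂ (X N → (X N → ℂ))) (fun y => 
    (EE 1 2 : Module.End ℂ (X N → (X N → ℂ))) ψ (sw y)) x = 
    (EE 1 2 : Module.End ℂ (X N → (X N → ℂ))) ψ x
  rw [EE_apply, EE_apply]
  by_cases h : x 1 = x 2
  · rw [if_pos h, if_pos h]
    rw [Finset.sum_eq_single (x 3)]
    · rw [EE_apply, if_pos (by rfl)]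
      refine Finset.sum_congr rfl fun c _ => ?_
      congr 1
      funext j
      fin_cases j <;> rfl
    · intro c _ hc
      rw [EE_apply, if_neg]
      intro h2
      exact hc h2
    · intro h2
      exact absurd (Finset.mem_univ _) h2
  · rw [if_neg h, if_neg h]

theorem tv' : (VM N).trace = (N : ℂ) ^ 3 := by
  rw [Matrix.trace, sum4]
  have h : ∀ i j k l : Fin N, (VM N).diag ![i, j, k, l] = if k = l then 1 else 0 := by
    intro i j k l
    show ind (sw ![i, j, k, l] = ![i, j, k, l]) = _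
    split_ifs with h
    · apply ind_pos
      rw [h]
      funext j
      fin_cases j <;> rfl
    · apply ind_neg
      intro h2
      exact h (congrFun h2 3)
  simp only [h]
  simp
  ring

theorem tav' : (EM N 0 1 * VM N).trace = (N : ℂ) ^ 2 := by
  rw [Matrix.trace, sum4]
  have h : ∀ i j k l : Fin N, (EM N 0 1 * VM N).diag ![i, j, k, l] = 
      (if i = j then 1 else 0) * (if k = l then 1 else 0) := by
    intro i j k l
    show (EM N 0 1 * VM N) ![i, j, k, l] ![i, j, k, l] = _
    rw [mul_VM, EM_apply]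
    by_cases h1 : i = j
    · rw [if_pos h1, if_pos (by exact h1), one_mul, Finset.sum_eq_single i]
      · split_ifs with h2
        · apply ind_pos
          rw [h2, h1]
          funext r
          fin_cases r <;> rfl
        · apply ind_neg
          intro h3
          exact h2 (congrFun h3 2)
      · intro c _ hc
        apply ind_neg
        intro h3
        exact hc (congrFun h3 0)
      · intro h3
        exact absurd (Finset.mem_univ _) h3
    · rw [if_neg h1, if_neg (by exact h1), zero_mul]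
  simp only [h, ← Finset.mul_sum]
  simp
  ring

theorem datV (hN : 3 ≤ N) : DatV (Matrix.traceLinearMap (X N) ℂ ℂ) (EM N 0 1) (EM N 1 2) (EM N 2 3) 
    (N : ℂ) (Ar N) (VM N) where
  d := dat hN
  va := va'
  vc := vc'
  cv := cv'
  bvb := bvb'
  tv := tv'
  tav := tav'

/-! ### parity -/

/-- every colour occurs an even number of times -/
def Par (M : Matrix (X N) (X N) ℂ) : Prop := 
  ∀ x y, M x y ≠ 0 → ∀ g : Fin N → ZMod 2, ∑ i, g (x i) + ∑ i, g (y i) = 0

theorem Par.mul {M M' : Matrix (X N) (X N) ℂ} (h : Par M) (h' : Par M') : Par (M * M') := by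
  intro x y hxy g
  rw [Matrix.mul_apply] at hxy
  obtain ⟨z, _, hz⟩ := Finset.exists_ne_zero_of_sum_ne_zero hxy
  have h1 := h x z (left_ne_zero_of_mul hz) g
  have h2 := h' z y (right_ne_zero_of_mul hz) g
  have h3 : (2 : ZMod 2) = 0 := rfl
  linear_combination h1 + h2 - (∑ i, g (z i)) * h3

theorem Par.add {M M' : Matrix (X N) (X N) ℂ} (h : Par M) (h' : Par M') : Par (M + M') := by
  intro x y hxy g
  rw [Matrix.add_apply] at hxy
  by_cases h1 : M x y = 0
  · rw [h1, zero_add] at hxy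
    exact h' x y hxy g
  · exact h x y h1 g

theorem Par.sub {M M' : Matrix (X N) (X N) ℂ} (h : Par M) (h' : Par M') : Par (M - M') := by
  intro x y hxy g
  rw [Matrix.sub_apply] at hxy
  by_cases h1 : M x y = 0
  · rw [h1, zero_sub, neg_ne_zero] at hxy
    exact h' x y hxy g
  · exact h x y h1 g

theorem Par.smul {M : Matrix (X N) (X N) ℂ} (h : Par M) (r : ℂ) : Par (r • M) := by
  intro x y hxy g
  rw [Matrix.smul_apply, smul_eq_mul] at hxy
  exact h x y (right_ne_zero_of_mul hxy) g

theorem Par.one : Par (1 : Matrix (X N) (X N) ℂ) := by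
  intro x y hxy g
  have : x = y := by
    by_contra h
    exact hxy (Matrix.one_apply_ne h)
  rw [this]
  exact CharTwo.add_self_eq_zero _

theorem par_EM (p q : Fin 4) (hpq : (p = 0 ∧ q = 1) ∨ (p = 1 ∧ q = 2) ∨ (p = 2 ∧ q = 3)) : 
    Par (EM N p q) := by
  intro x y hxy g
  rw [EM_apply] at hxy
  split_ifs at hxy with h
  · obtain ⟨c, _, hc⟩ := Finset.exists_ne_zero_of_sum_ne_zero hxy
    have hy : upd x p q c = y := by
      by_contra h2
      exact hc (ind_neg h2)
    rw [← hy, Fin.sum_univ_four, Fin.sum_univ_four]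
    have h3 : (2 : ZMod 2) = 0 := rfl
    rcases hpq with ⟨rfl, rfl⟩ | ⟨rfl, rfl⟩ | ⟨rfl, rfl⟩
    · have e0 : upd x 0 1 c 0 = c := rfl
      have e1 : upd x 0 1 c 1 = c := rfl
      have e2 : upd x 0 1 c 2 = x 2 := rfl
      have e3 : upd x 0 1 c 3 = x 3 := rfl
      rw [e0, e1, e2, e3, h]
      linear_combination (g (x 1) + g c + g (x 2) + g (x 3)) * h3
    · have e0 : upd x 1 2 c 0 = x 0 := rfl
      have e1 : upd x 1 2 c 1 = c := rfl
      have e2 : upd x 1 2 c 2 = c := rfl
      have e3 : upd x 1 2 c 3 = x 3 := rfl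
      rw [e0, e1, e2, e3, h]
      linear_combination (g (x 0) + g c + g (x 2) + g (x 3)) * h3
    · have e0 : upd x 2 3 c 0 = x 0 := rfl
      have e1 : upd x 2 3 c 1 = x 1 := rfl
      have e2 : upd x 2 3 c 2 = c := rfl
      have e3 : upd x 2 3 c 3 = c := rfl
      rw [e0, e1, e2, e3, h]
      linear_combination (g (x 0) + g (x 1) + g c + g (x 3)) * h3
  · exact absurd rfl hxy

/-- the sum over the colourings of five points -/
theorem sum_five (M : Matrix (X N) (X N) ℂ) (h : Par M) : 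
    ∑ u : Fin 5 → Fin N, M (u ∘ ![0, 1, 2, 3]) (u ∘ ![0, 1, 3, 4]) = (M * VM N).trace := by
  let e : (X N × Fin N) ≃ (Fin 5 → Fin N) := 
    { toFun := fun t => ![t.1 0, t.1 1, t.1 2, t.1 3, t.2]
      invFun := fun u => (u ∘ ![0, 1, 2, 3], u 4)
      left_inv := fun t => by
        refine Prod.ext ?_ rfl
        funext j
        fin_cases j <;> rfl
      right_inv := fun u => by
        funext j
        fin_cases j <;> rfl }
  rw [← Equiv.sum_comp e, Fintype.sum_prod_type, Matrix.trace]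
  refine Finset.sum_congr rfl fun x _ => ?_
  rw [Matrix.diag_apply, mul_VM]
  have e1 : ∀ c, (e (x, c)) ∘ ![0, 1, 2, 3] = x := by
    intro c
    funext j
    fin_cases j <;> rfl
  have e2 : ∀ c, (e (x, c)) ∘ ![0, 1, 3, 4] = ![x 0, x 1, x 3, c] := by
    intro c
    funext j
    fin_cases j <;> rfl
  simp only [e1, e2]
  rw [Finset.sum_eq_single (x 2)]
  · congr 1
    funext j
    fin_cases j <;> rfl
  · intro c _ hc
    by_contra h2
    obtain ⟨g, hg1, hg2⟩ : ∃ g : Fin N → ZMod 2, g c = 1 ∧ g (x 2) = 0 := 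
      ⟨fun i => if i = c then 1 else 0, if_pos rfl, if_neg (fun h => hc h.symm)⟩
    have h3 := h _ _ h2 g
    rw [Fin.sum_univ_four, Fin.sum_univ_four] at h3
    change g (x 0) + g (x 1) + g (x 2) + g (x 3) + (g (x 0) + g (x 1) + g (x 3) + g c) = 0 at h3
    have h4 : (2 : ZMod 2) = 0 := rfl
    rw [hg1, hg2] at h3
    have h5 : (1 : ZMod 2) = 0 := by
      linear_combination h3 - (g (x 0) + g (x 1) + g (x 3)) * h4
    exact absurd h5 (by decide)
  · intro h3
    exact absurd (Finset.mem_univ _) h3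

end KTr

end Pool.Agent.K4H70.HB
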