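import Pool.Agent.K4H70.HB.Alg

/-!
# Identities in the Temperley-Lieb algebra on four strands
-/

set_option autoImplicit false

namespace Pool.Agent.K4H70.HB

section tl
variable {R B : Type*} [CommRing R] [Ring B] [Algebra R B] {d : R} {a b e : B}

/-- the relations on four strands -/
structure TL4 (d : R) (a b e : B) : Prop where
  aa : a * a = d • a
  bb : b * b = d • b
  ee : e * e = d • e
  aba : a * b * a = a
  bab : b * a * b = b
  beb : b * e * b = b
  ebe : e * b * e = e
  ae : a * e = e * a

/-- the central element -/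
def zc (d : R) (a b : B) : B := a * b + b * a - d • (a + b)

theorem TL4.za (h : TL4 d a b e) : zc d a b * a = (1 - d^2) • a := by
  have h1 : zc d a b * a = a * b * a + b * (a * a) - d • (a * a + b * a) := by
    unfold zc; simp only [sub_mul, add_mul, smul_mul_assoc, mul_assoc]
  rw [h1, h.aba, h.aa]
  simp only [mul_smul_comm]
  module

theorem TL4.az (h : TL4 d a b e) : a * zc d a b = (1 - d^2) • a := by
  have h1 : a * zc d a b = (a * a) * b + a * b * a - d • (a * a + a * b) := by
    unfold zc; simp only [mul_sub, mul_add, mul_smul_comm, mul_assoc]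
  rw [h1, h.aba, h.aa]
  simp only [smul_mul_assoc]
  module

theorem TL4.zb (h : TL4 d a b e) : zc d a b * b = (1 - d^2) • b := by
  have h1 : zc d a b * b = a * (b * b) + b * a * b - d • (a * b + b * b) := by
    unfold zc; simp only [sub_mul, add_mul, smul_mul_assoc, mul_assoc]
  rw [h1, h.bab, h.bb]
  simp only [mul_smul_comm]
  module

theorem TL4.bz (h : TL4 d a b e) : b * zc d a b = (1 - d^2) • b := by
  have h1 : b * zc d a b = b * a * b + (b * b) * a - d • (b * a + b * b) := by
    unfold zc; simp only [mul_sub, mul_add, mul_smul_comm, mul_assoc]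
  rw [h1, h.bab, h.bb]
  simp only [smul_mul_assoc]
  module

theorem TL4.zz (h : TL4 d a b e) : zc d a b * zc d a b = (1 - d^2) • zc d a b := by
  have h1 : zc d a b * zc d a b = zc d a b * a * b + zc d a b * b * a - d • (zc d a b * a + zc d a b * b) := by
    conv_lhs => rw [show zc d a b * zc d a b = zc d a b * (a * b + b * a - d • (a + b)) from rfl]
    simp only [mul_sub, mul_add, mul_smul_comm, mul_assoc]
  rw [h1, h.za, h.zb]
  simp only [smul_mul_assoc]
  unfold zc
  module

theorem TL4.eze (h : TL4 d a b e) : e * zc d a b * e = (2 - d^2) • (a * e) - d • e := by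
  have h1 : e * zc d a b * e = (e * a) * b * e + e * b * (a * e) - d • ((e * a) * e + e * b * e) := by
    unfold zc; simp only [mul_sub, mul_add, sub_mul, add_mul, smul_mul_assoc, mul_smul_comm, mul_assoc]
  have h2 : (e * a) * b * e = a * (e * b * e) := by rw [← h.ae]; simp only [mul_assoc]
  have h3 : e * b * (a * e) = e * b * e * a := by rw [h.ae]; simp only [mul_assoc]
  have h4 : (e * a) * e = d • (a * e) := by rw [← h.ae, mul_assoc, h.ee, mul_smul_comm]
  rw [h1, h2, h3, h4, h.ebe, ← h.ae]
  module

theorem TL4.ezez (h : TL4 d a b e) : e * zc d a b * e * zc d a b = 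
    ((2 - d^2) * (1 - d^2)) • (a * e) - d • (e * zc d a b) := by
  rw [h.eze, sub_mul, smul_mul_assoc, smul_mul_assoc, h.ae, mul_assoc, h.az, mul_smul_comm, smul_smul]

theorem TL4.zeze (h : TL4 d a b e) : zc d a b * e * zc d a b * e = 
    ((2 - d^2) * (1 - d^2)) • (a * e) - d • (zc d a b * e) := by
  have h1 : zc d a b * e * zc d a b * e = zc d a b * (e * zc d a b * e) := by simp only [mul_assoc]
  rw [h1, h.eze, mul_sub, mul_smul_comm, mul_smul_comm, ← mul_assoc, h.za, smul_mul_assoc, smul_smul]

theorem TL4.kap (h : TL4 d a b e) : 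
    ((e * zc d a b - zc d a b * e) * e - e * (e * zc d a b - zc d a b * e)) * zc d a b - 
      zc d a b * ((e * zc d a b - zc d a b * e) * e - e * (e * zc d a b - zc d a b * e)) = 
      (d * (d^2 - 3)) • (e * zc d a b - zc d a b * e) := by
  have h1 := h.ezez
  have h2 := h.zeze
  have h3 := h.zz
  have h4 := h.ee
  generalize zc d a b = z at *
  have e1 : ((e * z - z * e) * e - e * (e * z - z * e)) * z - 
      z * ((e * z - z * e) * e - e * (e * z - z * e)) = 
      (2 : R) • (e * z * e * z) - (2 : R) • (z * e * z * e) - z * (e * e) * z - (e * e) * (z * z) + 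
       (z * z) * (e * e) + z * (e * e) * z := by
    simp only [two_smul]
    noncomm_ring
  rw [e1, h1, h2, h3, h4]
  simp only [smul_mul_assoc, mul_smul_comm, smul_smul]
  module

/-- the cube of `(A + A⁻¹ a) (A + A⁻¹ b)` is the full twist -/
theorem TL4.full (h : TL4 d a b e) {u v : R} (huv : u * v = 1) (hd : d = -u^2 - v^2) :
    ((u • 1 + v • a) * (u • 1 + v • b)) * ((u • 1 + v • a) * (u • 1 + v • b)) * 
      ((u • 1 + v • a) * (u • 1 + v • b)) = (u^6) • (1 : B) + (u^2 - v^2) • zc d a b := by
  set P := (u • 1 + v • a) * (u • 1 + v • b) with hP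
  have hP' : P = (u^2) • (1 : B) + a + b + (v^2) • (a * b) := by
    rw [hP]
    simp only [mul_add, add_mul, smul_mul_assoc, mul_smul_comm, mul_one, one_mul, smul_smul, smul_add]
    match_scalars <;> first | ring1 | linear_combination huv | linear_combination -huv
  have pa : P * a = b * a := by
    rw [hP']
    have : ((u^2) • (1 : B) + a + b + (v^2) • (a * b)) * a = 
      (u^2) • a + a * a + b * a + (v^2) • (a * b * a) := by
      simp only [add_mul, smul_mul_assoc, one_mul]
    rw [this, h.aa, h.aba, hd]
    module
  have pb : P * b = (-v^2) • b + (-v^4) • (a * b) := by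
    rw [hP']
    have : ((u^2) • (1 : B) + a + b + (v^2) • (a * b)) * b = 
      (u^2) • b + a * b + b * b + (v^2) • (a * (b * b)) := by
      simp only [add_mul, smul_mul_assoc, one_mul, mul_assoc]
    rw [this, h.bb, mul_smul_comm, hd]
    match_scalars
    · ring
    · linear_combination (-(u * v) - 1) * huv
  have pab : P * (a * b) = b := by
    rw [← mul_assoc, pa, h.bab]
  have pba : P * (b * a) = (-v^2) • (b * a) + (-v^4) • a := by
    rw [← mul_assoc, pb, add_mul, smul_mul_assoc, smul_mul_assoc, h.aba]
  have p2 : P * P = (u^4) • (1 : B) + (u^2) • a + (u^2) • b + (1 - v^4) • (a * b) + b * a := by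
    conv_lhs => rw [show P * P = P * ((u^2) • (1 : B) + a + b + (v^2) • (a * b)) by rw [← hP']]
    simp only [mul_add, mul_smul_comm, mul_one]
    rw [pa, pb, pab, hP']
    match_scalars
    · ring
    · ring
    · ring
    · linear_combination (u * v + 1) * huv
    · ring
  have p3 : P * (P * P) = (u^6) • (1 : B) + (u^2 - v^2) • zc d a b := by
    rw [p2]
    simp only [mul_add, mul_smul_comm, mul_one]
    rw [pa, pb, pab, pba, hP']
    unfold zc
    rw [hd]
    match_scalars <;> first
      | ring1
      | linear_combination (-(u * v) - 1) * huv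
      | linear_combination (u * v + 1) * huv
      | linear_combination ((u * v) + 1) * (u^2 - v^2) * huv
      | linear_combination (-(u * v) - 1) * (u^2 - v^2) * huv
      | linear_combination ((u * v) + 1) * (u^2) * huv
      | linear_combination (-(u * v) - 1) * (u^2) * huv
      | linear_combination ((u * v) + 1) * (v^2) * huv
      | linear_combination (-(u * v) - 1) * (v^2) * huv
  rw [mul_assoc, p3]

end tl

end Pool.Agent.K4H70.HB
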