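import Pool.Agent.K4H70.HB.TL
import Pool.Agent.K4H70.HB.Def
import Pool.Agent.K4H70.HB.Div

/-!
# Iterated commutators of braid words on four strands
-/

set_option autoImplicit false

namespace Pool.Agent.K4H70.HB

open LaurentPolynomial Pool.Agent.H891R2.Jones Pool.Agent.W639.RB Pool.Agent.Y463.SK

/-- valid words on four strands -/
def VW (w : List (Bool × ℕ)) : Prop := ∀ x ∈ w, x.2 + 1 < 4

theorem VW.append {w w' : List (Bool × ℕ)} (h : VW w) (h' : VW w') : VW (w ++ w') := by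
  intro x hx
  rcases List.mem_append.1 hx with h1 | h1
  · exact h x h1
  · exact h' x h1

theorem VW.inv {w : List (Bool × ℕ)} (h : VW w) : VW (invL w) := by
  intro x hx
  simp only [invL, List.mem_reverse, List.mem_map] at hx
  obtain ⟨y, hy, rfl⟩ := hx
  exact h y hy

theorem invL_invL (w : List (Bool × ℕ)) : invL (invL w) = w := by
  simp [invL, List.map_reverse, Function.comp_def]

/-- the submonoid of words -/
noncomputable def WM : Submonoid (BB 4) where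
  carrier := {b | ∃ w, VW w ∧ b = bb 4 w}
  mul_mem' := by
    rintro a b ⟨w, hw, rfl⟩ ⟨w', hw', rfl⟩
    exact ⟨w ++ w', hw.append hw', (bb_append 4 w w').symm⟩
  one_mem' := ⟨[], by simp [VW], rfl⟩

/-- the subalgebra spanned by the words -/
noncomputable def SS : Subalgebra ℤ[T;T⁻¹] (BB 4) := Algebra.adjoin _ (WM : Set (BB 4))

theorem bb_mem {w : List (Bool × ℕ)} (hw : VW w) : bb 4 w ∈ SS := 
  Algebra.subset_adjoin ⟨w, hw, rfl⟩

theorem bb_one_letter (i : ℕ) : bb 4 [(true, i)] = (T 1 : ℤ[T;T⁻¹]) • (1 : BB 4) + (T (-1) : ℤ[T;T⁻¹]) • EB 4 i := by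
  simp [bb, wd, ltr]

theorem bb_cons_true (i : ℕ) (w : List (Bool × ℕ)) : bb 4 ((true, i) :: w) = 
    ((T 1 : ℤ[T;T⁻¹]) • (1 : BB 4) + (T (-1) : ℤ[T;T⁻¹]) • EB 4 i) * bb 4 w := by
  rw [← bb_one_letter, ← bb_append]; rfl

theorem EB_mem (i : ℕ) (hi : i + 1 < 4) : EB 4 i ∈ SS := by
  have h : EB 4 i = (T 1 : ℤ[T;T⁻¹]) • bb 4 [(true, i)] - (T 1 * T 1 : ℤ[T;T⁻¹]) • (1 : BB 4) := by
    rw [bb_one_letter, smul_add, smul_smul, smul_smul, T_mul_inv, one_smul]
    abel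
  rw [h]
  exact SS.sub_mem (SS.smul_mem (bb_mem (by intro x hx; simp at hx; rw [hx]; exact hi)) _) 
    (SS.smul_mem SS.one_mem _)

theorem zz_mem : zz ∈ SS := by
  have h0 := EB_mem 0 (by norm_num)
  have h1 := EB_mem 1 (by norm_num)
  exact SS.sub_mem (SS.add_mem (SS.mul_mem h0 h1) (SS.mul_mem h1 h0)) (SS.smul_mem (SS.add_mem h0 h1) _)

theorem L1_mem : L1 ∈ SS := 
  SS.sub_mem (SS.mul_mem (EB_mem 2 (by norm_num)) zz_mem) (SS.mul_mem zz_mem (EB_mem 2 (by norm_num)))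

theorem tl4 : TL4 dd (EB 4 0) (EB 4 1) (EB 4 2) where
  aa := (isTLr_EB 4).sq 0 (by norm_num)
  bb := (isTLr_EB 4).sq 1 (by norm_num)
  ee := (isTLr_EB 4).sq 2 (by norm_num)
  aba := (isTLr_EB 4).up 0 (by norm_num)
  bab := (isTLr_EB 4).down 0 (by norm_num)
  beb := (isTLr_EB 4).up 1 (by norm_num)
  ebe := (isTLr_EB 4).down 1 (by norm_num)
  ae := (isTLr_EB 4).far 0 2 (by norm_num) (by norm_num)

theorem bb_inv' {w : List (Bool × ℕ)} (hw : VW w) : bb 4 (invL w) * bb 4 w = 1 := by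
  have := bb_inv (invL w) hw.inv
  rwa [invL_invL] at this

/-- the word `w` is `u (1 + q a)`, `a ≡ L` modulo `p` -/
def NS (p u : ℤ[T;T⁻¹]) (w : List (Bool × ℕ)) (q : ℤ[T;T⁻¹]) (L : BB 4) : Prop :=
  VW w ∧ (∃ u', u * u' = 1) ∧ L ∈ SS ∧ ∃ a ∈ SS, bb 4 w = u • (1 + q • a) ∧ Cg SS p a L

/-- the commutator of words -/
def commW (a b : List (Bool × ℕ)) : List (Bool × ℕ) := a ++ b ++ invL a ++ invL b

theorem VW.comm {w w' : List (Bool × ℕ)} (h : VW w) (h' : VW w') : VW (commW w w') := 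
  ((h.append h').append h.inv).append h'.inv

theorem nm_of {p u q : ℤ[T;T⁻¹]} {w : List (Bool × ℕ)} {a L : BB 4} (hw : VW w)
    (hL : L ∈ SS) (ha : a ∈ SS) (hb : bb 4 w = u • (1 + q • a)) (hc : Cg SS p a L) :
    Nm SS p q (1 + q • a) (u • bb 4 (invL w)) L where
  mul := by
    have h1 := bb_inv w hw
    rw [hb, smul_mul_assoc] at h1
    rw [mul_smul_comm]
    exact h1
  mul' := by
    have h1 := bb_inv' hw
    rw [hb, mul_smul_comm] at h1
    rw [smul_mul_assoc]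
    exact h1
  mem' := SS.smul_mem (bb_mem hw.inv) _
  mL := hL
  ex := ⟨a, ha, rfl, hc⟩

theorem NS.comm {p u v q x : ℤ[T;T⁻¹]} {w w' : List (Bool × ℕ)} {L M : BB 4} (hq : p ∣ q) (hx : p ∣ x)
    (h : NS p u w q L) (k : NS p v w' x M) : NS p 1 (commW w w') (q * x) (L * M - M * L) := by
  obtain ⟨hw, ⟨u', hu⟩, hL, a, ha, hb, hc⟩ := h
  obtain ⟨hw', ⟨v', hv⟩, hM, b, hb1, hb', hc'⟩ := k
  have n1 := nm_of hw hL ha hb hc
  have n2 := nm_of hw' hM hb1 hb' hc'
  have n := n1.comm hq hx n2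
  obtain ⟨c, hc1, hc2, hc3⟩ := n.ex
  refine ⟨hw.comm hw', ⟨1, one_mul 1⟩, n.mL, c, hc1, ?_, hc3⟩
  rw [one_smul, ← hc2]
  unfold commW
  rw [bb_append, bb_append, bb_append]
  have e1 : bb 4 (invL w) = u' • (u • bb 4 (invL w)) := by
    rw [smul_smul, mul_comm, hu, one_smul]
  have e2 : bb 4 (invL w') = v' • (v • bb 4 (invL w')) := by
    rw [smul_smul, mul_comm, hv, one_smul]
  conv_lhs => rw [e1, e2, hb, hb']
  exact comm_smul hu hv _ _ _ _

/-- powers of words -/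
def powN (w : List (Bool × ℕ)) (k : ℕ) : List (Bool × ℕ) := (List.replicate k w).flatten

theorem VW.pow {w : List (Bool × ℕ)} (h : VW w) (k : ℕ) : VW (powN w k) := by
  intro x hx
  unfold powN at hx
  rw [List.mem_flatten] at hx
  obtain ⟨l, hl, hx⟩ := hx
  rw [List.eq_of_mem_replicate hl] at hx
  exact h x hx

theorem bb_powN (w : List (Bool × ℕ)) (k : ℕ) : bb 4 (powN w k) = (bb 4 w)^k := by
  induction k with
  | zero => rfl
  | succ k ih =>
    have : powN w (k+1) = w ++ powN w k := by simp [powN, List.replicate_succ]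
    rw [this, bb_append, ih, pow_succ']

theorem NS_pow {p U U' s D ρ : ℤ[T;T⁻¹]} {w : List (Bool × ℕ)} {g : BB 4} (hw : VW w) (hU : U * U' = 1)
    (hb : bb 4 w = U • (1 + s • g)) (hg : g * g = D • g) (hρ : 1 + s * D = ρ) (hS : g ∈ SS) (k : ℕ) :
    NS p (U^k) (powN w k) (s * ∑ j ∈ Finset.range k, ρ ^ j) g := by
  refine ⟨hw.pow k, ⟨U'^k, by rw [← mul_pow, hU, one_pow]⟩, hS, g, hS, ?_, Cg.refl g⟩
  rw [bb_powN, hb, smul_pow, pow_one_add hg hρ]

/-- the words `σ_3^(2k)` and `(σ_1 σ_2)^(3r)` -/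
def XX (k : ℕ) : List (Bool × ℕ) := powN [(true, 2), (true, 2)] k
def YY (r : ℕ) : List (Bool × ℕ) := powN [(true, 0), (true, 1), (true, 0), (true, 1), (true, 0), (true, 1)] r

theorem dd_eq : dd = -T 2 - T (-2) := by
  unfold dd
  rw [T_pow, T_pow]; norm_num

theorem NS_XX (p : ℤ[T;T⁻¹]) (k : ℕ) : NS p ((T 2)^k) (XX k) (xx k) (EB 4 2) := by
  refine NS_pow (U' := T (-2)) (D := dd) (by intro x hx; simp at hx; rcases hx with rfl | rfl <;> norm_num) 
    (by rw [← T_add]; simp) ?_ tl4.ee ?_ (EB_mem 2 (by norm_num)) k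
  · rw [bb_cons_true, bb_one_letter]
    have e1 : (T 1 * T (-1) : ℤ[T;T⁻¹]) = 1 := T_mul_inv
    have e2 : (T 2 : ℤ[T;T⁻¹]) = T 1 * T 1 := by rw [← T_add]; norm_num
    have e3 : (T (-2) : ℤ[T;T⁻¹]) = T (-1) * T (-1) := by rw [← T_add]; norm_num
    have e4 : (T (-4) : ℤ[T;T⁻¹]) = T (-1) * T (-1) * T (-1) * T (-1) := by 
      rw [← T_add, ← T_add, ← T_add]; norm_num
    simp only [mul_add, add_mul, smul_mul_assoc, mul_smul_comm, mul_one, one_mul, smul_smul, smul_add,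
      tl4.ee, dd]
    rw [e2, e3, e4]
    match_scalars
    · ring
    · linear_combination (-2 * (T 1 * T (-1)) + T (-1)^4 * (T 1 * T (-1) + 1)) * e1
  · rw [dd_eq]
    simp only [mul_sub, mul_neg, sub_mul, ← T_add, mul_one]
    norm_num

theorem NS_YY (p : ℤ[T;T⁻¹]) (r : ℕ) : NS p ((T 6)^r) (YY r) (yy r) zz := by
  have hz : zz = zc dd (EB 4 0) (EB 4 1) := rfl
  refine NS_pow (U' := T (-6)) (D := 1 - dd^2) (by 
      intro x hx; simp at hx; rcases hx with rfl | rfl | rfl | rfl | rfl | rfl <;> norm_num) 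
    (by rw [← T_add]; simp) ?_ (by rw [hz]; exact tl4.zz) ?_ zz_mem r
  · have hd : dd = -(T 1)^2 - (T (-1))^2 := rfl
    have h := tl4.full T_mul_inv hd
    rw [← hz] at h
    rw [bb_cons_true, bb_cons_true, bb_cons_true, bb_cons_true, bb_cons_true, bb_one_letter]
    have h2 : ∀ P Q : BB 4, P * (Q * (P * (Q * (P * Q)))) = (P * Q) * (P * Q) * (P * Q) := by
      intro P Q; simp only [mul_assoc]
    rw [h2, h, smul_add, smul_smul]
    simp only [T_pow, mul_sub, mul_one, ← T_add]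
    norm_num
  · rw [dd_eq]
    simp only [pow_two, mul_sub, mul_neg, sub_mul, neg_mul, ← T_add, mul_one]
    norm_num
    try ring_nf

/-- the eigenvalue -/
noncomputable def kk : ℤ[T;T⁻¹] := dd * (dd^2 - 3)

/-- the words -/
def HW (k r : ℕ) : ℕ → List (Bool × ℕ)
  | 0 => commW (XX k) (YY r)
  | n + 1 => commW (commW (HW k r n) (XX k)) (YY r)

theorem NS_HW {p : ℤ[T;T⁻¹]} {k r : ℕ} (hx : p ∣ xx k) (hy : p ∣ yy r) : ∀ n, 
    NS p 1 (HW k r n) ((xx k * yy r)^(n+1)) (kk^n • L1)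
  | 0 => by
    have h := (NS_XX p k).comm hx hy (NS_YY p r)
    rw [zero_add, pow_one, pow_zero, one_smul]
    exact h
  | n + 1 => by
    have ih := NS_HW hx hy n
    have hq : p ∣ (xx k * yy r)^(n+1) := (hx.mul_right _).trans (dvd_pow_self _ (by omega))
    have h1 := ih.comm hq hx (NS_XX p k)
    have h2 := h1.comm (hq.mul_right _) hy (NS_YY p r)
    have e1 : (xx k * yy r)^(n+1) * xx k * yy r = (xx k * yy r)^(n+1+1) := by ring
    have e2 : (kk^n • L1 * EB 4 2 - EB 4 2 * kk^n • L1) * zz - zz * (kk^n • L1 * EB 4 2 - EB 4 2 * kk^n • L1) = 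
        kk^(n+1) • L1 := by
      have h3 : (L1 * EB 4 2 - EB 4 2 * L1) * zz - zz * (L1 * EB 4 2 - EB 4 2 * L1) = kk • L1 := tl4.kap
      rw [smul_mul_assoc, mul_smul_comm, ← smul_sub, smul_mul_assoc, mul_smul_comm, ← smul_sub, h3,
        smul_smul, pow_succ]
    rw [e1, e2] at h2
    exact h2

theorem comm_perm {a b : List (Bool × ℕ)} (ha : permL a = 1) (hb : permL b = 1) : 
    permL (commW a b) = 1 := by
  have h1 := permL_inv a
  have h2 := permL_inv b
  rw [ha, one_mul] at h1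
  rw [hb, one_mul] at h2
  unfold commW
  rw [permL_append, permL_append, permL_append, ha, hb, h1, h2]
  rfl

theorem comm_cost {a b : List (Bool × ℕ)} (ha : permL a = 1) (hb : permL b = 1) (U : ℕ → ℤ) : 
    costS (commW a b) U = 0 := by
  have h1 := permL_inv a
  rw [ha, one_mul] at h1
  have hab : permL (a ++ b) = 1 := by rw [permL_append, ha, hb]; rfl
  have haba : permL (a ++ b ++ invL a) = 1 := by rw [permL_append, hab, h1]; rfl
  unfold commW
  rw [costS_append, costS_append, costS_append, hab, haba, ha]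
  have h3 : U ∘ ⇑(1 : Equiv.Perm ℕ) = U := rfl
  have c1 := costS_inv a U
  have c2 := costS_inv b U
  rw [ha, h3] at c1
  rw [hb, h3] at c2
  rw [h3, c1, c2]
  ring

theorem powN_perm {w : List (Bool × ℕ)} (h : permL w = 1) (k : ℕ) : permL (powN w k) = 1 := 
  permL_powL h (k : ℤ)

theorem XX_perm (k : ℕ) : permL (XX k) = 1 := by
  refine powN_perm ?_ k
  simp [permL, Equiv.swap_mul_self]

theorem YY_perm (r : ℕ) : permL (YY r) = 1 := by
  refine powN_perm ?_ r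
  ext n
  rcases n with _ | _ | _ | n
  · simp [permL, Equiv.swap_apply_def]
  · simp [permL, Equiv.swap_apply_def]
  · simp [permL, Equiv.swap_apply_def]
  · simp [permL, Equiv.swap_apply_def]

theorem HW_perm (k r : ℕ) : ∀ n, permL (HW k r n) = 1
  | 0 => comm_perm (XX_perm k) (YY_perm r)
  | n + 1 => comm_perm (comm_perm (HW_perm k r n) (XX_perm k)) (YY_perm r)

theorem HW_cost (k r : ℕ) (U : ℕ → ℤ) : ∀ n, costS (HW k r n) U = 0
  | 0 => comm_cost (XX_perm k) (YY_perm r) U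
  | n + 1 => comm_cost (comm_perm (HW_perm k r n) (XX_perm k)) (YY_perm r) U

theorem HW_valid {k r : ℕ} (n : ℕ) : VW (HW k r n) := (NS_HW (p := 1) (one_dvd _) (one_dvd _) n).1

end Pool.Agent.K4H70.HB
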